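import Pool.Agent.H.MP_374efc_lc.Red.Z1
import Pool.Agent.H.MP_374efc_lc.Fr.Ln1

/-!
# MP_374efc_lc: the colimit of the free monoid under an injective morphism

`Col H` is the colimit of `α* → α* → ...` (all maps `H`); `Col.mk H k u` is `t^(-k) u`. It is a cancellative
monoid without units; left divisors of one element are comparable. `Col.tau` is the automorphism `t`.
-/

set_option autoImplicit false

namespace D0L

variable {α : Type} (H : α → List α)

/-- Injectivity as an instance. -/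
class HInj (H : α → List α) : Prop where
  inj : Function.Injective (app H)

theorem col_it_inj [hi : HInj H] (n : ℕ) : Function.Injective (it H n) := hi.inj.iterate n

theorem col_comm (m n : ℕ) (u : List α) : it H m (it H n u) = it H n (it H m u) := by
  rw [← it_add, ← it_add, Nat.add_comm]

/-- The relation of representatives. -/
def colSetoid [HInj H] : Setoid (ℕ × List α) where
  r a b := it H b.1 a.2 = it H a.1 b.2
  iseqv :=
    { refl := fun _ => rfl
      symm := fun h => h.symm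
      trans := by
        rintro ⟨k, u⟩ ⟨l, v⟩ ⟨m, w⟩ h1 h2
        simp only at h1 h2 ⊢
        apply col_it_inj H l
        rw [col_comm H l m, h1, col_comm H m k, h2, col_comm H k l] }

/-- The colimit. -/
def Col [HInj H] : Type := Quotient (colSetoid H)

namespace Col

variable [HInj H]

/-- The element `t^(-k) u`. -/
def mk (k : ℕ) (u : List α) : Col H := Quotient.mk (colSetoid H) (k, u)

variable {H}

theorem mk_eq {k l : ℕ} {u v : List α} : mk H k u = mk H l v ↔ it H l u = it H k v :=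
  ⟨fun h => Quotient.exact h, fun h => Quotient.sound h⟩

theorem mk_lift (k d : ℕ) (u : List α) : mk H (d + k) (it H d u) = mk H k u := by
  rw [mk_eq, ← it_add, Nat.add_comm]

theorem mk_inj {k : ℕ} {u v : List α} (h : mk H k u = mk H k v) : u = v :=
  col_it_inj H k (mk_eq.1 h)

theorem rep (x : Col H) : ∃ k u, x = mk H k u := by
  induction x using Quotient.inductionOn with
  | h a => exact ⟨a.1, a.2, rfl⟩

/-- A representative of a larger level. -/
theorem rep_ge (x : Col H) : ∃ k, ∀ l, k ≤ l → ∃ u, x = mk H l u := by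
  obtain ⟨k, u, rfl⟩ := rep x
  refine ⟨k, fun l hl => ⟨it H (l - k) u, ?_⟩⟩
  rw [← mk_lift k (l - k) u]
  congr 1
  omega

theorem rep2 (x y : Col H) : ∃ k u v, x = mk H k u ∧ y = mk H k v := by
  obtain ⟨k, hk⟩ := rep_ge x
  obtain ⟨l, hl⟩ := rep_ge y
  obtain ⟨u, hu⟩ := hk (max k l) (le_max_left _ _)
  obtain ⟨v, hv⟩ := hl (max k l) (le_max_right _ _)
  exact ⟨_, u, v, hu, hv⟩

theorem rep3 (x y z : Col H) : ∃ k u v w, x = mk H k u ∧ y = mk H k v ∧ z = mk H k w := by
  obtain ⟨k, hk⟩ := rep_ge x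
  obtain ⟨l, hl⟩ := rep_ge y
  obtain ⟨m, hm⟩ := rep_ge z
  obtain ⟨u, hu⟩ := hk (max k (max l m)) (le_max_left _ _)
  obtain ⟨v, hv⟩ := hl (max k (max l m)) ((le_max_left _ _).trans (le_max_right _ _))
  obtain ⟨w, hw⟩ := hm (max k (max l m)) ((le_max_right _ _).trans (le_max_right _ _))
  exact ⟨_, u, v, w, hu, hv, hw⟩

/-- Product of representatives. -/
def mul2 (a b : ℕ × List α) : ℕ × List α := (a.1 + b.1, it H b.1 a.2 ++ it H a.1 b.2)

instance : Mul (Col H) where
  mul := Quotient.map₂ (mul2 (H := H)) (by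
    rintro ⟨k, u⟩ ⟨k', u'⟩ h1 ⟨l, v⟩ ⟨l', v'⟩ h2
    change it H k' u = it H k u' at h1
    change it H l' v = it H l v' at h2
    change it H (k' + l') (it H l u ++ it H k v) = it H (k + l) (it H l' u' ++ it H k' v')
    rw [it_append, it_append]
    congr 1
    · rw [← it_add, show k' + l' + l = (l' + l) + k' by omega, it_add, h1, ← it_add, ← it_add]
      congr 1
      omega
    · rw [← it_add, show k' + l' + k = (k' + k) + l' by omega, it_add, h2, ← it_add, ← it_add]
      congr 1
      omega)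

theorem mk_mul (k l : ℕ) (u v : List α) :
    mk H k u * mk H l v = mk H (k + l) (it H l u ++ it H k v) := rfl

/-- The product at one level. -/
theorem mk_mul_mk (k : ℕ) (u v : List α) : mk H k u * mk H k v = mk H k (u ++ v) := by
  rw [mk_mul, ← it_append, mk_lift]

instance : One (Col H) where
  one := mk H 0 []

theorem one_def : (1 : Col H) = mk H 0 [] := rfl

theorem mk_nil (k : ℕ) : mk H k [] = 1 := by
  rw [one_def, mk_eq, it_nil, it_nil]

theorem mk_eq_one {k : ℕ} {u : List α} : mk H k u = 1 ↔ u = [] := by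
  constructor
  · intro h
    rw [← mk_nil k] at h
    exact mk_inj h
  · rintro rfl
    exact mk_nil k

instance : CancelMonoid (Col H) where
  mul_assoc x y z := by
    obtain ⟨k, u, v, w, rfl, rfl, rfl⟩ := rep3 x y z
    rw [mk_mul_mk, mk_mul_mk, mk_mul_mk, mk_mul_mk, List.append_assoc]
  one_mul x := by
    obtain ⟨k, u, rfl⟩ := rep x
    rw [← mk_nil k, mk_mul_mk, List.nil_append]
  mul_one x := by
    obtain ⟨k, u, rfl⟩ := rep x
    rw [← mk_nil k, mk_mul_mk, List.append_nil]
  mul_left_cancel x y z h := by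
    obtain ⟨k, u, v, w, rfl, rfl, rfl⟩ := rep3 x y z
    simp only [mk_mul_mk] at h
    have h1 := mk_inj h
    rw [List.append_cancel_left h1]
  mul_right_cancel x y z h := by
    obtain ⟨k, u, v, w, rfl, rfl, rfl⟩ := rep3 x y z
    simp only [mk_mul_mk] at h
    have h1 := mk_inj h
    rw [List.append_cancel_right h1]

theorem mul_eq_one_iff {x y : Col H} : x * y = 1 ↔ x = 1 ∧ y = 1 := by
  obtain ⟨k, u, v, rfl, rfl⟩ := rep2 x y
  rw [mk_mul_mk, mk_eq_one, mk_eq_one, mk_eq_one, List.append_eq_nil_iff]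

/-- Left division of representatives. -/
theorem mk_dvd {k : ℕ} {u v : List α} : mk H k u ∣ mk H k v ↔ ∃ d, it H d u <+: it H d v := by
  constructor
  · rintro ⟨z, hz⟩
    obtain ⟨l, hl⟩ := rep_ge z
    obtain ⟨w, rfl⟩ := hl (l + k) (Nat.le_add_right _ _)
    refine ⟨l, w, ?_⟩
    rw [← mk_lift k l u, ← mk_lift k l v, mk_mul_mk] at hz
    exact (mk_inj hz).symm
  · rintro ⟨d, w, hw⟩
    refine ⟨mk H (d + k) w, ?_⟩
    rw [← mk_lift k d u, ← mk_lift k d v, mk_mul_mk, hw]

theorem dvd_antisymm' {x y : Col H} (h1 : x ∣ y) (h2 : y ∣ x) : x = y := by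
  obtain ⟨a, rfl⟩ := h1
  obtain ⟨b, hb⟩ := h2
  rw [mul_assoc] at hb
  have h3 : a * b = 1 := mul_left_cancel (a := x) (by rw [← hb, mul_one])
  rw [(mul_eq_one_iff.1 h3).1, mul_one]

/-- Left divisors of one element are comparable. -/
theorem dvd_total {x y z : Col H} (h1 : x ∣ z) (h2 : y ∣ z) : x ∣ y ∨ y ∣ x := by
  obtain ⟨a, ha⟩ := h1
  obtain ⟨b, hb⟩ := h2
  obtain ⟨k, u, v, rfl, rfl⟩ := rep2 x y
  obtain ⟨l, u', v', rfl, rfl⟩ := rep2 a b
  obtain ⟨m, hm⟩ : ∃ m, m = k + l := ⟨_, rfl⟩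
  have e1 : mk H k u = mk H m (it H l u) := by rw [hm, Nat.add_comm, mk_lift]
  have e2 : mk H k v = mk H m (it H l v) := by rw [hm, Nat.add_comm, mk_lift]
  have e3 : mk H l u' = mk H m (it H k u') := by rw [hm, mk_lift]
  have e4 : mk H l v' = mk H m (it H k v') := by rw [hm, mk_lift]
  rw [e1, e3, mk_mul_mk] at ha
  rw [e2, e4, mk_mul_mk] at hb
  have h3 := mk_inj (ha.symm.trans hb)
  rw [e1, e2]
  rcases List.append_eq_append_iff.1 h3 with ⟨w, hw, -⟩ | ⟨w, hw, -⟩
  · left
    exact ⟨mk H m w, by rw [mk_mul_mk, hw]⟩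
  · right
    exact ⟨mk H m w, by rw [mk_mul_mk, hw]⟩

/-- Cancellation in divisibility. -/
theorem mul_dvd_mul_left_iff' {x y z : Col H} : x * y ∣ x * z ↔ y ∣ z := by
  constructor
  · rintro ⟨a, ha⟩
    refine ⟨a, ?_⟩
    rw [mul_assoc] at ha
    exact mul_left_cancel ha
  · exact fun h => mul_dvd_mul_left x h

/-! ### the automorphism -/

/-- The automorphism `t`. -/
def tau : Col H ≃* Col H where
  toFun := Quotient.map (fun a => (a.1, app H a.2)) (by
    rintro ⟨k, u⟩ ⟨l, v⟩ h
    change it H l u = it H k v at h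
    change it H l (app H u) = it H k (app H v)
    rw [← it_succ', ← it_succ', it_succ, it_succ, h])
  invFun := Quotient.map (fun a => (a.1 + 1, a.2)) (by
    rintro ⟨k, u⟩ ⟨l, v⟩ h
    change it H l u = it H k v at h
    change it H (l + 1) u = it H (k + 1) v
    rw [it_succ, it_succ, h])
  left_inv x := by
    obtain ⟨k, u, rfl⟩ := rep x
    change mk H (k + 1) (app H u) = mk H k u
    rw [← mk_lift k 1 u, Nat.add_comm]
    rfl
  right_inv x := by
    obtain ⟨k, u, rfl⟩ := rep x
    change mk H (k + 1) (app H u) = mk H k u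
    rw [← mk_lift k 1 u, Nat.add_comm]
    rfl
  map_mul' x y := by
    obtain ⟨k, u, v, rfl, rfl⟩ := rep2 x y
    rw [mk_mul_mk]
    change mk H k (app H (u ++ v)) = mk H k (app H u) * mk H k (app H v)
    rw [mk_mul_mk, app_append]

theorem tau_mk (k : ℕ) (u : List α) : tau (mk H k u) = mk H k (app H u) := rfl

theorem tau_symm_mk (k : ℕ) (u : List α) : (tau (H := H)).symm (mk H k u) = mk H (k + 1) u := rfl

theorem tau_pow_mk (m k : ℕ) (u : List α) :
    (tau ^ m : MulAut (Col H)) (mk H k u) = mk H k (it H m u) := by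
  induction m with
  | zero => rfl
  | succ m ih =>
    rw [pow_succ', MulAut.mul_apply, ih, tau_mk, ← it_succ]

/-- The automorphism `t^k`, `k` an integer. -/
def sft (k : ℤ) : MulAut (Col H) := (tau : MulAut (Col H)) ^ k

theorem sft_add (k l : ℤ) (x : Col H) : sft (k + l) x = sft k (sft l x) := by
  rw [sft, zpow_add, MulAut.mul_apply]
  rfl

theorem sft_zero (x : Col H) : sft 0 x = x := by
  rw [sft, zpow_zero]
  rfl

theorem sft_neg_cancel (k : ℤ) (x : Col H) : sft (-k) (sft k x) = x := by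
  rw [← sft_add, neg_add_cancel, sft_zero]

theorem sft_cancel_neg (k : ℤ) (x : Col H) : sft k (sft (-k) x) = x := by
  rw [← sft_add, add_neg_cancel, sft_zero]

theorem sft_dvd {k : ℤ} {x y : Col H} : sft k x ∣ sft k y ↔ x ∣ y := by
  constructor
  · rintro ⟨z, hz⟩
    refine ⟨sft (-k) z, ?_⟩
    have h1 := congrArg (sft (-k)) hz
    rwa [map_mul, sft_neg_cancel, sft_neg_cancel] at h1
  · rintro ⟨z, rfl⟩
    exact ⟨sft k z, map_mul _ _ _⟩

theorem sft_eq_one {k : ℤ} {x : Col H} : sft k x = 1 ↔ x = 1 := by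
  constructor
  · intro h
    have h1 := congrArg (sft (-k)) h
    rwa [sft_neg_cancel, map_one] at h1
  · rintro rfl
    exact map_one _

theorem sft_nat_mk (m k : ℕ) (u : List α) : sft (m : ℤ) (mk H k u) = mk H k (it H m u) := by
  rw [sft, zpow_natCast, tau_pow_mk]

theorem sft_neg_mk (m k : ℕ) (u : List α) : sft (-(m : ℤ)) (mk H k u) = mk H (k + m) u := by
  have h1 : sft (m : ℤ) (mk H (k + m) u) = mk H k u := by
    rw [sft_nat_mk, Nat.add_comm, mk_lift]
  rw [← h1, sft_neg_cancel]

end Col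

end D0L
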