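import Pool.Agent.H.MP_374efc_lc.Cr.St4

/-!
# MP_374efc_lc: the formula `w e = w 0 * w q` with `e ∣ q`

The tokens `w 0, ..., w (e - q - 1)` are a code (helper5, F0): `w 0 * R_0` and `R_0` have a short
common part
(`F0.zone`), which gives the pair lemma (`F0.pair`) and equality of the heads.
-/

set_option autoImplicit false

namespace D0L

namespace Tk

variable {C : Type} [CancelMonoid C] {S : Tk C} {e u : ℕ}

/-- The data: `w e = w 0 * w (-u e)`, `w 0` and `w e` do not commute. -/
structure F0 (S : Tk C) (e u : ℕ) : Prop where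
  rel : S.w e = S.w 0 * S.w (-(u * e : ℕ))
  hP : S.P e
  hD : S.D e
  he : 0 < e
  hu : 0 < u
  nc : S.w 0 * S.w e ≠ S.w e * S.w 0

theorem R_se {c : ℤ} (m : ℤ) {x : C} : S.s (m * e) x ∈ S.R e c ↔ x ∈ S.R e c := by
  have h1 := R_s (S := S) (e := e) (c := c) (k := m * e) (x := x)
  rwa [R_add] at h1

/-- A longer element of the ray is a multiple. -/
theorem P.dvd_of_len (hP : S.P e) {c : ℤ} {x y : C} (hx : x ∈ S.R e c) (hy : y ∈ S.R e c)
    (h : S.len x < S.len y) : x ∣ y := by
  rcases hP.R_total hx hy with h1 | h1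
  · exact h1
  · have := S.dvd_len h1
    linarith

theorem R_long (he : 0 < e) (c : ℤ) (B : ℝ) : ∃ m : ℤ, B < S.len (S.w (c + m * e)) := by
  obtain ⟨q, hq⟩ := pow_unbounded_of_one_lt (B / (S.lam ^ c * S.len S.w0)) S.one_lt
  refine ⟨q, ?_⟩
  have h0 : 0 < S.lam ^ c * S.len S.w0 := mul_pos (zpow_pos S.lam_pos c) S.len_w0
  have h1 : B < S.lam ^ q * (S.lam ^ c * S.len S.w0) := (div_lt_iff₀ h0).1 hq
  rw [S.len_w, zpow_add₀ S.lam_pos.ne', mul_assoc]
  refine h1.trans_le ?_
  have h2 : S.lam ^ q ≤ S.lam ^ ((q : ℤ) * e) := by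
    rw [← zpow_natCast]
    refine zpow_le_zpow_right₀ S.one_lt.le ?_
    have : (q : ℤ) * 1 ≤ q * e := mul_le_mul_of_nonneg_left (by omega) (by omega)
    omega
  calc S.lam ^ q * (S.lam ^ c * S.len S.w0) ≤ S.lam ^ ((q : ℤ) * e) * (S.lam ^ c * S.len S.w0) :=
        mul_le_mul_of_nonneg_right h2 h0.le
    _ = S.lam ^ c * (S.lam ^ ((q : ℤ) * e) * S.len S.w0) := by ring

theorem lam_e_le {k : ℤ} (hk : (e : ℤ) ≤ k) : S.lam ^ e ≤ S.lam ^ k := by
  rw [← zpow_natCast]
  exact zpow_le_zpow_right₀ S.one_lt.le hk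

theorem lam_e2_le {k : ℤ} (hk : 2 * (e : ℤ) ≤ k) : (S.lam ^ e) ^ 2 ≤ S.lam ^ k := by
  rw [← pow_mul, ← zpow_natCast]
  refine zpow_le_zpow_right₀ S.one_lt.le ?_
  push_cast
  linarith

namespace F0

variable (h : S.F0 e u)

include h

theorem mu_pos : 1 < S.lam ^ e := one_lt_pow₀ S.one_lt h.he.ne'

theorem mu_eq : (S.lam ^ e) ^ u * (S.lam ^ e - 1) = 1 := by
  have h1 := congrArg S.len h.rel
  rw [S.len_mul, S.len_w, S.len_w, S.len_w, zpow_natCast, zpow_zero, zpow_neg, zpow_natCast,
    ← add_mul] at h1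
  have h2 := mul_right_cancel₀ S.len_w0.ne' h1
  rw [← pow_mul, Nat.mul_comm e u]
  have h3 : 0 < S.lam ^ (u * e) := pow_pos S.lam_pos _
  rw [h2]
  field_simp
  ring

theorem mu_lt_two : S.lam ^ e < 2 := by
  have h1 := h.mu_eq
  have h2 := h.mu_pos
  have h3 : 1 < (S.lam ^ e) ^ u := one_lt_pow₀ h2 h.hu.ne'
  nlinarith

theorem rel_k (k : ℤ) : S.w (k + e) = S.w k * S.w (k - u * e) := by
  have h1 := congrArg (S.s k) h.rel
  rw [S.s_w, map_mul, S.s_w, S.s_w, add_zero] at h1
  rw [h1]
  push_cast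
  rfl

/-- One step of the extension of the common part. -/
theorem step {x y : C} (hx : x ∈ S.R e 0) (hxy : x = S.w 0 * y) (hy : y ∈ S.R e 0)
    (hlt : S.len S.w0 < (2 - S.lam ^ e) * S.len x) :
    ∃ x' y', x' ∈ S.R e 0 ∧ x' = S.w 0 * y' ∧ y' ∈ S.R e 0 ∧
      (2 - S.lam ^ e) * S.len x' - S.len S.w0 =
        (S.lam ^ e) ^ u * ((2 - S.lam ^ e) * S.len x - S.len S.w0) := by
  have hmu := h.mu_pos
  have hmu2 := h.mu_lt_two
  have hL := S.len_w0
  have hweR : S.w e ∈ S.R e 0 := by
    have h1 := w_mem_R (S := S) (e := e) (e : ℤ)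
    have h2 := R_add (S := S) (e := e) 0 1
    rw [zero_add, one_mul] at h2
    rwa [h2] at h1
  have hlenx : S.len (S.w e) < S.len x := by
    rw [S.len_w, zpow_natCast]
    have h1 : (2 - S.lam ^ e) * (S.lam ^ e * S.len S.w0) < (2 - S.lam ^ e) * S.len x := by
      refine lt_trans ?_ hlt
      have h2 : (2 - S.lam ^ e) * S.lam ^ e < 1 := by nlinarith
      nlinarith
    exact lt_of_mul_lt_mul_left h1 (by linarith)
  obtain ⟨x1, hx1⟩ := h.hP.dvd_of_len hweR hx hlenx
  have hrel0 : S.w e = S.w 0 * S.w (-(u * e : ℕ)) := h.rel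
  have hy1 : y = S.w (-(u * e : ℕ)) * x1 := by
    have h1 : S.w 0 * y = S.w 0 * (S.w (-(u * e : ℕ)) * x1) := by
      rw [← hxy, hx1, hrel0, mul_assoc]
    exact mul_left_cancel h1
  -- `t^(-e) x`
  have h2 : S.s (-1 * e) x ∈ S.R e 0 := (R_se (-1)).2 hx
  have hlx : 0 < S.len x := by
    have : 0 < S.len (S.w e) := by
      rw [S.len_w]
      exact mul_pos (zpow_pos S.lam_pos _) hL
    linarith
  have h3 : S.s (-1 * e) x ∣ x := by
    refine h.hP.dvd_of_len h2 hx ?_
    rw [S.len_s]
    have h4 : S.lam ^ ((-1 : ℤ) * e) < 1 := by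
      rw [neg_one_mul, zpow_neg, zpow_natCast]
      exact inv_lt_one_of_one_lt₀ hmu
    nlinarith
  have h4 : S.s (-1 * e) x = S.w 0 * S.s (-1 * e) x1 := by
    rw [hx1, map_mul, S.s_w]
    congr 2
    ring
  have hx1R : x1 ∈ S.R e 0 := by
    rw [h4, hxy, mul_dvd_iff] at h3
    have h5 := R_down h3 hy
    exact (R_se (-1)).1 h5
  refine ⟨S.s (u * e) y, S.s (u * e) x1, (R_se (u : ℤ)).2 hy, ?_, (R_se (u : ℤ)).2 hx1R, ?_⟩
  · rw [hy1, map_mul, S.s_w]
    congr 2
    push_cast
    ring
  · rw [S.len_s]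
    have h5 : S.len y = S.len x - S.len S.w0 := by
      rw [hxy, S.len_mul, S.len_w, zpow_zero]
      ring
    have h6 : S.lam ^ ((u : ℤ) * e) = (S.lam ^ e) ^ u := by
      rw [← pow_mul, Nat.mul_comm e u, ← zpow_natCast]
      push_cast
      rfl
    rw [h5, h6]
    have h7 := h.mu_eq
    linear_combination (S.len S.w0) * h7

/-- **The zone of `w 0`.** -/
theorem zone {x y : C} (hx : x ∈ S.R e 0) (hxy : x = S.w 0 * y) (hy : y ∈ S.R e 0) :
    (2 - S.lam ^ e) * S.len x ≤ S.len S.w0 := by
  by_contra hcon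
  push Not at hcon
  have hmu := h.mu_pos
  have hmu2 := h.mu_lt_two
  have hL := S.len_w0
  obtain ⟨δ, hδ⟩ : ∃ δ, δ = (2 - S.lam ^ e) * S.len x - S.len S.w0 := ⟨_, rfl⟩
  have hδ0 : 0 < δ := by rw [hδ]; linarith
  have hmuu : 1 < (S.lam ^ e) ^ u := one_lt_pow₀ hmu h.hu.ne'
  have hit : ∀ k : ℕ, ∃ x' y', x' ∈ S.R e 0 ∧ x' = S.w 0 * y' ∧ y' ∈ S.R e 0 ∧
      (2 - S.lam ^ e) * S.len x' - S.len S.w0 = ((S.lam ^ e) ^ u) ^ k * δ := by
    intro k
    induction k with
    | zero => exact ⟨x, y, hx, hxy, hy, by rw [pow_zero, one_mul, hδ]⟩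
    | succ k ih =>
      obtain ⟨x', y', h1, h2, h3, h4⟩ := ih
      have h5 : 0 < ((S.lam ^ e) ^ u) ^ k * δ := mul_pos (pow_pos (by linarith) k) hδ0
      obtain ⟨x'', y'', g1, g2, g3, g4⟩ := h.step h1 h2 h3 (by linarith)
      refine ⟨x'', y'', g1, g2, g3, ?_⟩
      rw [g4, h4, pow_succ]
      ring
  -- long common parts
  have hlong : ∀ z ∈ S.R e 0, S.w 0 * z ∈ S.R e 0 := by
    intro z hz
    obtain ⟨k, hk⟩ := pow_unbounded_of_one_lt (((2 - S.lam ^ e) * (S.len S.w0 + S.len z)) / δ) hmuu
    obtain ⟨x', y', h1, h2, h3, h4⟩ := hit k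
    have h5 : (2 - S.lam ^ e) * (S.len S.w0 + S.len z) < ((S.lam ^ e) ^ u) ^ k * δ :=
      (div_lt_iff₀ hδ0).1 hk
    have h6 : (2 - S.lam ^ e) * (S.len S.w0 + S.len z) < (2 - S.lam ^ e) * S.len x' := by
      linarith
    have h7 := lt_of_mul_lt_mul_left h6 (by linarith)
    have h8 : S.len x' = S.len S.w0 + S.len y' := by
      rw [h2, S.len_mul, S.len_w, zpow_zero, one_mul]
    have h9 : z ∣ y' := h.hP.dvd_of_len hz h3 (by linarith)
    refine R_down ?_ h1
    rw [h2]
    exact mul_dvd_mul_left _ h9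
  have hweR : ∀ m : ℤ, S.w (m * e) ∈ S.R e 0 := by
    intro m
    have h1 := w_mem_R (S := S) (e := e) (m * e : ℤ)
    have h2 := R_add (S := S) (e := e) 0 m
    rw [zero_add] at h2
    rwa [h2] at h1
  have h1 := hlong _ (hweR 1)
  have h2 := hlong _ (hweR (-1))
  have h3 := (R_se (S := S) (e := e) (c := 0) 1).2 h2
  rw [map_mul, S.s_w, S.s_w, add_zero] at h3
  have h4 : (1 : ℤ) * e + -1 * e = 0 := by ring
  rw [h4] at h3
  rw [one_mul] at h1 h3
  apply h.nc
  have hlen : S.len (S.w 0 * S.w e) = S.len (S.w e * S.w 0) := by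
    rw [S.len_mul, S.len_mul, add_comm]
  rcases h.hP.R_total h1 h3 with h5 | h5
  · by_contra hne
    have := S.dvd_len_lt h5 hne
    linarith
  · by_contra hne
    have := S.dvd_len_lt h5 (Ne.symm hne)
    linarith

/-- The zone at index `c`. -/
theorem zone_k {c : ℤ} {x y : C} (hx : x ∈ S.R e c) (hxy : x = S.w c * y) (hy : y ∈ S.R e c) :
    (2 - S.lam ^ e) * S.len x ≤ S.lam ^ c * S.len S.w0 := by
  have h1 : S.s (-c) x ∈ S.R e 0 := by
    have := (R_s (S := S) (e := e) (c := c) (k := -c)).2 hx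
    rwa [add_neg_cancel] at this
  have h2 : S.s (-c) y ∈ S.R e 0 := by
    have := (R_s (S := S) (e := e) (c := c) (k := -c)).2 hy
    rwa [add_neg_cancel] at this
  have h3 : S.s (-c) x = S.w 0 * S.s (-c) y := by
    rw [hxy, map_mul, S.s_w, neg_add_cancel]
  have h4 := h.zone h1 h3 h2
  rw [S.len_s, zpow_neg] at h4
  have h5 : 0 < S.lam ^ c := zpow_pos S.lam_pos c
  have h6 : S.lam ^ c * ((2 - S.lam ^ e) * ((S.lam ^ c)⁻¹ * S.len x)) ≤
      S.lam ^ c * S.len S.w0 := mul_le_mul_of_nonneg_left h4 h5.le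
  have h7 : S.lam ^ c * ((2 - S.lam ^ e) * ((S.lam ^ c)⁻¹ * S.len x)) =
      (2 - S.lam ^ e) * S.len x := by
    field_simp
  linarith

theorem rel_rho (c : ℤ) (r : ℕ) :
    S.w (c + r * e) = S.w c * S.pr (rho e [-((u * e : ℕ) : ℤ)] c r) := by
  induction r generalizing c with
  | zero => simp [rho, pr_nil]
  | succ r ih =>
    have h1 : c + ((r + 1 : ℕ) : ℤ) * e = c + e + r * e := by
      push_cast
      ring
    have h2 : S.w (c + e) = S.w c * S.pr ([-((u * e : ℕ) : ℤ)].map (c + ·)) := by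
      rw [h.rel_k, List.map_cons, List.map_nil, pr_cons, pr_nil, mul_one]
      push_cast
      rfl
    rw [h1, ih (c + e), h2, rho, S.pr_append, mul_assoc]

/-- Cancellation of the smaller head. -/
theorem cancel {c d : ℤ} {U V : List ℤ} (heq : S.pr (c :: U) = S.pr (d :: V)) (hcd : c < d) :
    ∃ r : ℕ, d = c + (r + 1 : ℕ) * e ∧
      S.pr U = S.pr ((c - u * e) :: (rho e [-((u * e : ℕ) : ℤ)] (c + e) r ++ V)) := by
  obtain ⟨r, hr⟩ := head_add h.hD h.he heq hcd
  refine ⟨r, hr, ?_⟩
  rw [pr_cons, pr_cons, hr, h.rel_rho, mul_assoc] at heq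
  have h1 := mul_left_cancel heq
  rw [h1, rho, ← pr_append, List.map_cons, List.map_nil]
  have h2 : c + -((u * e : ℕ) : ℤ) = c - u * e := by
    push_cast
    ring
  rw [h2]
  rfl

/-- **The pair lemma.** -/
theorem pair {c c1 d : ℤ} {U V : List ℤ} (heq : S.pr (c :: c1 :: U) = S.pr (d :: V))
    (hcd : c < d) (h1 : 1 < (2 - S.lam ^ e) * S.lam ^ (d - c)) :
    (2 - S.lam ^ e) * (1 + S.lam ^ (c1 - c)) ≤ 1 := by
  obtain ⟨r, hr, h2⟩ := h.cancel heq hcd
  obtain ⟨z, hz⟩ := head_class h.hD h2
  have hL := S.len_w0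
  have hc1 : c1 = c + (-(u : ℤ) - z) * e := by linarith
  have hRc1 : S.w c1 ∈ S.R e c := by
    have h3 := w_mem_R (S := S) (e := e) c1
    rw [hc1, R_add] at h3
    rwa [hc1]
  have hRd : S.w d ∈ S.R e c := by
    have h3 := w_mem_R (S := S) (e := e) d
    rw [hr, R_add] at h3
    rwa [hr]
  have hc0 : 0 < S.lam ^ c := zpow_pos S.lam_pos c
  have hX1 : S.w d ∣ S.pr (d :: V) := by
    rw [pr_cons]
    exact Dvd.intro _ rfl
  have hX2 : S.w c * S.w c1 ∣ S.pr (d :: V) := by
    rw [← heq, pr_cons, pr_cons, ← mul_assoc]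
    exact Dvd.intro _ rfl
  rcases S.total _ _ _ hX1 hX2 with h3 | h3
  · exfalso
    have h4 : S.w c ∣ S.w d := by
      rw [hr]
      exact h.hP.mul c (r + 1)
    obtain ⟨y, hy⟩ := h4
    have h5 : y ∣ S.w c1 := by
      rw [hy] at h3
      exact mul_dvd_iff.1 h3
    have h6 := h.zone_k hRd hy (R_down h5 hRc1)
    rw [S.len_w] at h6
    have h7 : S.lam ^ d = S.lam ^ c * S.lam ^ (d - c) := by
      rw [← zpow_add₀ S.lam_pos.ne']
      congr 1
      ring
    rw [h7] at h6
    have h8 : 0 < S.lam ^ c * S.len S.w0 := mul_pos hc0 hL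
    have h9 : (S.lam ^ c * S.len S.w0) * 1 <
        (S.lam ^ c * S.len S.w0) * ((2 - S.lam ^ e) * S.lam ^ (d - c)) :=
      mul_lt_mul_of_pos_left h1 h8
    linarith
  · have h6 := h.zone_k (R_down h3 hRd) rfl hRc1
    rw [S.len_mul, S.len_w, S.len_w] at h6
    have h7 : S.lam ^ c1 = S.lam ^ c * S.lam ^ (c1 - c) := by
      rw [← zpow_add₀ S.lam_pos.ne']
      congr 1
      ring
    rw [h7] at h6
    have h8 : 0 < S.lam ^ c * S.len S.w0 := mul_pos hc0 hL
    have h9 : (S.lam ^ c * S.len S.w0) * ((2 - S.lam ^ e) * (1 + S.lam ^ (c1 - c))) ≤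
        (S.lam ^ c * S.len S.w0) * 1 := by linarith
    exact le_of_mul_le_mul_left h9 h8

/-- No different heads, `2 ≤ u`. -/
theorem no_lt2 (hu2 : 2 ≤ u) {c d : ℤ} {U V : List ℤ} (hc : 0 ≤ c) (hd : d < (u + 1) * e)
    (hU : ∀ j ∈ U, 0 ≤ j) (hV : ∀ j ∈ V, 0 ≤ j) (heq : S.pr (c :: U) = S.pr (d :: V))
    (hcd : c < d) : False := by
  have hmu := h.mu_pos
  have hmu2 := h.mu_lt_two
  have he := h.he
  have hmm : (S.lam ^ e) ^ 2 < S.lam ^ e + 1 := by
    have h1 := h.mu_eq
    have h2 : (S.lam ^ e) ^ 2 ≤ (S.lam ^ e) ^ u := pow_le_pow_right₀ hmu.le hu2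
    have h3 : S.lam ^ e < (S.lam ^ e) ^ 2 := by nlinarith
    nlinarith
  have hz1 : 1 < (2 - S.lam ^ e) * (1 + S.lam ^ e) := by nlinarith
  have hz2 : 1 < (2 - S.lam ^ e) * (S.lam ^ e) ^ 2 := by
    obtain ⟨m, hm⟩ : ∃ m, m = S.lam ^ e := ⟨_, rfl⟩
    rw [← hm] at hmm hmu ⊢
    have : 0 < (m - 1) * (m + 1 - m ^ 2) := mul_pos (by linarith) (by linarith)
    nlinarith
  obtain ⟨r, hr, h2⟩ := h.cancel heq hcd
  obtain ⟨k, hk⟩ : ∃ k : ℤ, k = c - u * e := ⟨_, rfl⟩
  rw [← hk] at h2
  have hre : (e : ℤ) ≤ ((r + 1 : ℕ) : ℤ) * e := by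
    push_cast
    nlinarith [Int.natCast_nonneg r, Int.natCast_nonneg e]
  have hk0 : k < 0 := by
    rw [hk]
    nlinarith
  cases U with
  | nil =>
    have := pr_eq_one (S := S) h2.symm
    simp at this
  | cons c1 U =>
    have hc1 : 0 ≤ c1 := hU c1 List.mem_cons_self
    obtain ⟨W, hW⟩ : ∃ W, W = rho e [-((u * e : ℕ) : ℤ)] (c + e) r ++ V := ⟨_, rfl⟩
    rw [← hW] at h2
    obtain ⟨r1, hr1, h3⟩ := h.cancel h2.symm (by omega)
    have hWne : W ≠ [] := by
      rintro rfl
      have := pr_eq_one (S := S) h3.symm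
      simp at this
    obtain ⟨g, W2, hg⟩ := List.exists_cons_of_ne_nil hWne
    have hgk : k < g := by
      cases r with
      | zero =>
        rw [rho, List.nil_append] at hW
        have := hV g (by rw [← hW, hg]; exact List.mem_cons_self)
        omega
      | succ r =>
        rw [rho, hg] at hW
        have h4 : g = c + e + -((u * e : ℕ) : ℤ) := by
          rw [List.map_cons, List.map_nil, List.append_assoc, List.singleton_append] at hW
          exact (List.cons.inj hW).1
        rw [h4, hk]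
        push_cast
        have : (0 : ℤ) < e := by exact_mod_cast he
        linarith
    rw [hg] at h2 h3
    obtain ⟨z, hz⟩ := head_class h.hD h3
    have hge : k + e ≤ g := by
      have h4 : g = k + (-(u : ℤ) - z) * e := by linarith
      have h5 : (0 : ℤ) < (-(u : ℤ) - z) * e := by linarith
      have h6 : 0 < (-(u : ℤ) - z) := by
        by_contra hcon
        push Not at hcon
        have : (-(u : ℤ) - z) * e ≤ 0 := mul_nonpos_of_nonpos_of_nonneg hcon (by omega)
        omega
      have h7 : 1 * (e : ℤ) ≤ (-(u : ℤ) - z) * e := mul_le_mul_of_nonneg_right (by omega) (by omega)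
      linarith
    have hr10 : r1 = 0 := by
      by_contra hne
      have h4 : 1 < (2 - S.lam ^ e) * S.lam ^ (c1 - k) := by
        have h5 : 2 * (e : ℤ) ≤ c1 - k := by
          rw [hr1]
          have : (2 : ℤ) * e ≤ ((r1 + 1 : ℕ) : ℤ) * e :=
            mul_le_mul_of_nonneg_right (by push_cast; omega) (by omega)
          linarith
        have h6 := lam_e2_le (S := S) h5
        nlinarith
      have h7 := h.pair h2.symm (by omega) h4
      have h8 := lam_e_le (S := S) (e := e) (k := g - k) (by linarith)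
      nlinarith
    subst hr10
    rw [rho, List.nil_append] at h3
    -- `pr (g :: W2) = pr ((k - u e) :: U)`
    have hkg : k - u * e < g := by
      have : (0 : ℤ) ≤ u * e := by positivity
      omega
    obtain ⟨r2, hr2, h4⟩ := h.cancel h3.symm hkg
    cases U with
    | nil =>
      have := pr_eq_one (S := S) h4.symm
      simp at this
    | cons c2 U =>
      obtain ⟨z2, hz2'⟩ := head_class h.hD h4
      have hc2 : 0 ≤ c2 := hU c2 (by simp)
      have h5 : 1 < (2 - S.lam ^ e) * S.lam ^ (g - (k - u * e)) := by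
        have h6 : 2 * (e : ℤ) ≤ g - (k - u * e) := by
          have : (1 : ℤ) * e ≤ u * e := mul_le_mul_of_nonneg_right (by omega) (by omega)
          linarith
        have h7 := lam_e2_le (S := S) h6
        nlinarith
      have h6 := h.pair h3.symm hkg h5
      have h7 : 2 * (e : ℤ) ≤ c2 - (k - u * e) := by
        have : (2 : ℤ) * e ≤ u * e := mul_le_mul_of_nonneg_right (by omega) (by omega)
        linarith
      have h8 := lam_e2_le (S := S) h7
      nlinarith

/-- No different heads, `u = 1`. -/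
theorem no_lt1 (hu1 : u = 1) {c d : ℤ} {U V : List ℤ} (hc : 0 ≤ c) (hd : d < 2 * e)
    (hU : ∀ j ∈ U, 0 ≤ j ∧ j < 2 * e) (hV : ∀ j ∈ V, 0 ≤ j ∧ j < 2 * e)
    (heq : S.pr (c :: U) = S.pr (d :: V)) (hcd : c < d) : False := by
  subst hu1
  have he := h.he
  have he' : (0 : ℤ) < e := by exact_mod_cast he
  have hrel : ∀ k : ℤ, S.w k = S.w (k - e) * S.w (k - 2 * e) := by
    intro k
    have h1 := h.rel_k (k - e)
    rw [sub_add_cancel] at h1
    rw [h1]
    congr 2
    push_cast
    ring
  obtain ⟨r, hr, h2⟩ := h.cancel heq hcd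
  have hr0 : r = 0 := by
    by_contra hne
    have : (2 : ℤ) * e ≤ ((r + 1 : ℕ) : ℤ) * e :=
      mul_le_mul_of_nonneg_right (by push_cast; omega) (by omega)
    linarith
  subst hr0
  rw [rho, List.nil_append, Nat.cast_one, one_mul] at h2
  rw [Nat.zero_add, Nat.cast_one, one_mul] at hr
  have hce : c < e := by linarith
  -- class of an index
  have hcls : ∀ j : ℤ, 0 ≤ j → (e : ℤ) ∣ j - c → c ≤ j := by
    rintro j hj ⟨z, hz⟩
    by_contra hcon
    push Not at hcon
    have h3 : (e : ℤ) * z < 0 := by omega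
    have h4 : z < 0 := by
      by_contra h5
      push Not at h5
      have : 0 ≤ (e : ℤ) * z := mul_nonneg he'.le h5
      omega
    have h5 : (e : ℤ) * z ≤ e * (-1) := mul_le_mul_of_nonneg_left (by omega) he'.le
    omega
  cases U with
  | nil =>
    have := pr_eq_one (S := S) h2.symm
    simp at this
  | cons c1 U =>
    obtain ⟨z, hz⟩ := head_class h.hD h2
    obtain ⟨hc10, hc1e⟩ := hU c1 List.mem_cons_self
    have hc1c : c ≤ c1 := hcls c1 hc10 ⟨-z - 1, by linarith⟩
    -- the left side without `w (c - e) w (c - 2 e)`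
    obtain ⟨T, hT, hTw⟩ : ∃ T, S.pr (c1 :: U) = S.w (c - e) * (S.w (c - 2 * e) * S.pr T) ∧
        (T = U ∨ T = (c - e) :: U) := by
      rcases eq_or_ne c1 c with h3 | h3
      · refine ⟨U, ?_, Or.inl rfl⟩
        rw [h3, pr_cons, hrel c, mul_assoc]
      · refine ⟨(c - e) :: U, ?_, Or.inr rfl⟩
        have h4 : c1 = c + e := by
          have h5 : c1 - c = e * (-1 - z) := by linarith
          have h6 : 0 < -1 - z := by
            by_contra hcon
            push Not at hcon
            have : (e : ℤ) * (-1 - z) ≤ 0 := mul_nonpos_of_nonneg_of_nonpos he'.le hcon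
            omega
          have h7 : -1 - z < 2 := by
            by_contra hcon
            push Not at hcon
            have : (e : ℤ) * 2 ≤ e * (-1 - z) := mul_le_mul_of_nonneg_left hcon he'.le
            omega
          have h8 : -1 - z = 1 := by omega
          rw [h8] at h5
          linarith
        rw [h4, pr_cons, hrel (c + e), pr_cons]
        have h5 : c + e - e = c := by ring
        have h6 : c + e - 2 * e = c - e := by ring
        rw [h5, h6, hrel c]
        simp only [mul_assoc]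
    rw [hT, pr_cons] at h2
    have h3 := mul_left_cancel h2
    cases V with
    | nil =>
      have h4 : S.pr ((c - 2 * e) :: T) = 1 := by rw [pr_cons, h3, pr_nil]
      have := pr_eq_one h4
      simp at this
    | cons g V =>
      have h4 : S.pr ((c - 2 * e) :: T) = S.pr (g :: V) := by rw [pr_cons, h3]
      obtain ⟨z2, hz2⟩ := head_class h.hD h4
      have hgc : c ≤ g := hcls g (hV g List.mem_cons_self).1 ⟨z2 - 2, by linarith⟩
      have hgw : S.w c ∣ S.w g := by
        have h5 : g = c + (z2 - 2) * e := by linarith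
        have h6 : 0 ≤ z2 - 2 := by
          by_contra hcon
          push Not at hcon
          have : (z2 - 2) * (e : ℤ) < 0 := mul_neg_of_neg_of_pos hcon he'
          omega
        obtain ⟨m, hm⟩ : ∃ m : ℕ, (m : ℤ) = z2 - 2 := ⟨(z2 - 2).toNat, Int.toNat_of_nonneg h6⟩
        rw [h5, ← hm]
        exact h.hP.mul c m
      obtain ⟨Z, hZ⟩ := hgw
      have h5 : S.w (c - 2 * e) * S.pr T =
          S.w (c - 2 * e) * (S.w (c - 3 * e) * (S.w (c - 2 * e) * (Z * S.pr V))) := by
        rw [h3, pr_cons, hZ, hrel c, hrel (c - e)]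
        have h6 : c - e - e = c - 2 * e := by ring
        have h7 : c - e - 2 * e = c - 3 * e := by ring
        rw [h6, h7]
        simp only [mul_assoc]
      have h6 := mul_left_cancel h5
      have h7 : S.w (c - e) ∣ S.pr T := by
        rcases hTw with h8 | h8
        · cases T with
          | nil =>
            exfalso
            have h9 : S.w (c - 3 * e) = 1 := by
              have h10 := congrArg S.len h6
              rw [pr_nil, S.len_one, S.len_mul] at h10
              have h11 := S.len_nonneg (S.w (c - 2 * e) * (Z * S.pr V))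
              by_contra hne
              have := S.len_pos _ hne
              linarith
            have h10 := S.len_w (c - 3 * e)
            rw [h9, S.len_one] at h10
            have := mul_pos (zpow_pos S.lam_pos (c - 3 * e)) S.len_w0
            linarith
          | cons c2 T =>
            have hc2 := hU c2 (by rw [← h8]; simp)
            have h9 : S.w c2 ∣ S.pr (c2 :: T) := by
              rw [pr_cons]
              exact Dvd.intro _ rfl
            have h10 : S.w (c - 3 * e) ∣ S.pr (c2 :: T) := by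
              rw [h6]
              exact Dvd.intro _ rfl
            have hne : ∀ k, S.w k ≠ 1 := by
              intro k hk
              have h11 := S.len_w k
              rw [hk, S.len_one] at h11
              have := mul_pos (zpow_pos S.lam_pos k) S.len_w0
              linarith
            have h11 : (e : ℤ) ∣ c2 - (c - 3 * e) := by
              rcases S.total _ _ _ h9 h10 with h12 | h12
              · exact h.hD _ _ _ (hne c2) dvd_rfl h12
              · exact h.hD _ _ _ (hne (c - 3 * e)) h12 dvd_rfl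
            obtain ⟨z3, hz3⟩ := h11
            have h12 : c ≤ c2 := hcls c2 hc2.1 ⟨z3 - 3, by linarith⟩
            have h13 : S.w (c - e) ∣ S.w c2 := by
              have h14 : c2 = (c - e) + (z3 - 2) * e := by linarith
              have h15 : 0 ≤ z3 - 2 := by
                by_contra hcon
                push Not at hcon
                have : (z3 - 2) * (e : ℤ) < 0 := mul_neg_of_neg_of_pos hcon he'
                omega
              obtain ⟨m, hm⟩ : ∃ m : ℕ, (m : ℤ) = z3 - 2 :=
                ⟨(z3 - 2).toNat, Int.toNat_of_nonneg h15⟩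
              rw [h14, ← hm]
              exact h.hP.mul (c - e) m
            exact h13.trans h9
        · rw [h8, pr_cons]
          exact Dvd.intro _ rfl
      have h8 : S.w (c - 3 * e) * S.w (c - 2 * e) ∣ S.pr T := by
        rw [h6, ← mul_assoc]
        exact Dvd.intro _ rfl
      have h9 : S.w (c - e) = S.w (c - 2 * e) * S.w (c - 3 * e) := by
        rw [hrel (c - e)]
        congr 2 <;> ring
      have h10 : S.len (S.w (c - e)) = S.len (S.w (c - 3 * e) * S.w (c - 2 * e)) := by
        rw [h9, S.len_mul, S.len_mul, add_comm]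
      have h11 : S.w (c - e) = S.w (c - 3 * e) * S.w (c - 2 * e) := by
        rcases S.total _ _ _ h7 h8 with h12 | h12
        · by_contra hne
          have := S.dvd_len_lt h12 hne
          linarith
        · by_contra hne
          have := S.dvd_len_lt h12 (Ne.symm hne)
          linarith
      rw [h9] at h11
      have h12 := congrArg (S.s (3 * e - c)) h11
      rw [map_mul, map_mul, S.s_w, S.s_w] at h12
      have h13 : 3 * e - c + (c - 2 * e) = (e : ℤ) := by ring
      have h14 : 3 * e - c + (c - 3 * e) = 0 := by ring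
      rw [h13, h14] at h12
      exact h.nc h12.symm

/-- **The tokens are a code.** -/
theorem code {U V : List ℤ} (hU : ∀ j ∈ U, 0 ≤ j ∧ j < (u + 1) * e)
    (hV : ∀ j ∈ V, 0 ≤ j ∧ j < (u + 1) * e) (heq : S.pr U = S.pr V) : U = V := by
  have hno : ∀ {c d : ℤ} {U V : List ℤ}, (∀ j ∈ c :: U, 0 ≤ j ∧ j < (u + 1) * e) →
      (∀ j ∈ d :: V, 0 ≤ j ∧ j < (u + 1) * e) → S.pr (c :: U) = S.pr (d :: V) → ¬ c < d := by
    intro c d U V hU hV heq hcd
    rcases Nat.lt_or_ge u 2 with h1 | h1
    · have hu := h.hu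
      have h2 : u = 1 := by omega
      have h3 : ((u : ℤ) + 1) * e = 2 * e := by
        rw [h2]
        norm_num
      rw [h3] at hU hV
      exact h.no_lt1 h2 (hU c List.mem_cons_self).1 (hV d List.mem_cons_self).2
        (fun j hj => hU j (List.mem_cons_of_mem _ hj))
        (fun j hj => hV j (List.mem_cons_of_mem _ hj)) heq hcd
    · exact h.no_lt2 h1 (hU c List.mem_cons_self).1 (hV d List.mem_cons_self).2
        (fun j hj => (hU j (List.mem_cons_of_mem _ hj)).1)
        (fun j hj => (hV j (List.mem_cons_of_mem _ hj)).1) heq hcd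
  clear h
  induction U generalizing V with
  | nil => exact (pr_eq_one (S := S) (by rw [← heq]; rfl)).symm
  | cons c U ih =>
    cases V with
    | nil =>
      have := pr_eq_one (S := S) (U := c :: U) (by rw [heq]; rfl)
      simp at this
    | cons d V =>
      have h1 := hno hU hV heq
      have h2 := hno hV hU heq.symm
      have h3 : c = d := by omega
      subst h3
      rw [pr_cons, pr_cons] at heq
      rw [ih (fun j hj => hU j (List.mem_cons_of_mem _ hj))
        (fun j hj => hV j (List.mem_cons_of_mem _ hj)) (mul_left_cancel heq)]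

end F0

/-- Tokens of different classes are a code. -/
theorem D.code (hD : S.D e) {U V : List ℤ} (hU : ∀ j ∈ U, 0 ≤ j ∧ j < e)
    (hV : ∀ j ∈ V, 0 ≤ j ∧ j < e) (heq : S.pr U = S.pr V) : U = V := by
  induction U generalizing V with
  | nil => exact (pr_eq_one (S := S) (by rw [← heq]; rfl)).symm
  | cons c U ih =>
    cases V with
    | nil =>
      have := pr_eq_one (S := S) (U := c :: U) (by rw [heq]; rfl)
      simp at this
    | cons d V =>
      have h1 := head_class hD heq
      have hc := hU c List.mem_cons_self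
      have hd := hV d List.mem_cons_self
      have h3 : c = d := by
        obtain ⟨z, hz⟩ := h1
        have h4 : (e : ℤ) * z < e * 1 := by omega
        have h5 : (e : ℤ) * (-1) < e * z := by omega
        have h6 : z < 1 := lt_of_mul_lt_mul_left h4 (by omega)
        have h7 : -1 < z := lt_of_mul_lt_mul_left h5 (by omega)
        have h8 : z = 0 := by omega
        rw [h8, mul_zero] at hz
        omega
      subst h3
      rw [pr_cons, pr_cons] at heq
      rw [ih (fun j hj => hU j (List.mem_cons_of_mem _ hj))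
        (fun j hj => hV j (List.mem_cons_of_mem _ hj)) (mul_left_cancel heq)]

end Tk

/-! ### commuting words -/

theorem comm_lw {n : ℕ} (l : Fin n → ℝ) : ∀ (k : ℕ) (x y : List (Fin n)),
    x.length + y.length = k → x ++ y = y ++ x →
      (y.length : ℝ) * Bim.lw l x = x.length * Bim.lw l y := by
  intro k
  induction k using Nat.strong_induction_on with
  | _ k ih =>
    intro x y hk h
    by_cases hx : x = []
    · subst hx
      simp [Bim.lw_nil]
    by_cases hy : y = []
    · subst hy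
      simp [Bim.lw_nil]
    have hx1 := List.length_pos_of_ne_nil hx
    have hy1 := List.length_pos_of_ne_nil hy
    rcases List.append_eq_append_iff.1 h with ⟨t, h1, h2⟩ | ⟨t, h1, h2⟩
    · have h3 : x ++ t = t ++ x := by rw [← h1, h2]
      have h4 := congrArg List.length h1
      rw [List.length_append] at h4
      have h5 := ih (x.length + t.length) (by omega) x t rfl h3
      rw [h1, List.length_append, Bim.lw_append]
      push_cast
      linarith
    · have h3 : y ++ t = t ++ y := by rw [← h1, h2]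
      have h4 := congrArg List.length h1
      rw [List.length_append] at h4
      have h5 := ih (y.length + t.length) (by omega) y t rfl h3
      rw [h1, List.length_append, Bim.lw_append]
      push_cast
      linarith

/-- `mu ^ u * (mu - 1) = 1` has no rational solution `mu > 1`. -/
theorem no_rat {p q u : ℕ} (hq : 0 < q) (hpq : q < p) (hu : 0 < u)
    (h : ((p : ℝ) / q) ^ u * ((p : ℝ) / q - 1) = 1) : False := by
  obtain ⟨g, hg⟩ : ∃ g, g = Nat.gcd p q := ⟨_, rfl⟩
  have hg0 : 0 < g := by rw [hg]; exact Nat.gcd_pos_of_pos_right p hq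
  obtain ⟨a, ha⟩ : g ∣ p := by rw [hg]; exact Nat.gcd_dvd_left p q
  obtain ⟨b, hb⟩ : g ∣ q := by rw [hg]; exact Nat.gcd_dvd_right p q
  have hcop : Nat.Coprime a b := by
    have h1 : Nat.gcd (g * a) (g * b) = g := by rw [← ha, ← hb, ← hg]
    rw [Nat.gcd_mul_left] at h1
    exact Nat.eq_of_mul_eq_mul_left hg0 (by rw [h1, Nat.mul_one])
  have hb0 : 0 < b := by
    rcases Nat.eq_zero_or_pos b with h1 | h1
    · rw [hb, h1, Nat.mul_zero] at hq
      exact absurd hq (lt_irrefl 0)
    · exact h1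
  have hab : b < a := by
    rw [ha, hb] at hpq
    exact lt_of_mul_lt_mul_left hpq (Nat.zero_le g)
  have h2 : (p : ℝ) / q = a / b := by
    rw [ha, hb]
    push_cast
    have : (g : ℝ) ≠ 0 := by exact_mod_cast hg0.ne'
    have : (b : ℝ) ≠ 0 := by exact_mod_cast hb0.ne'
    field_simp
  rw [h2] at h
  have hbR : (b : ℝ) ≠ 0 := by exact_mod_cast hb0.ne'
  have h3 : (a : ℝ) ^ u * (a - b) = b ^ (u + 1) := by
    have h4 : ((a : ℝ) / b) ^ u * (a / b - 1) * b ^ (u + 1) = b ^ (u + 1) := by
      rw [h, one_mul]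
    rw [← h4, div_pow, pow_succ]
    field_simp
  have h4 : a ^ u * (a - b) = b ^ (u + 1) := by
    have h5 : ((a ^ u * (a - b) : ℕ) : ℝ) = ((b ^ (u + 1) : ℕ) : ℝ) := by
      push_cast [Nat.cast_sub hab.le]
      exact h3
    exact_mod_cast h5
  have h5 : a ∣ b ^ (u + 1) := by
    rw [← h4]
    exact Dvd.dvd.mul_right (dvd_pow_self a hu.ne') _
  have h6 : a = 1 := Nat.Coprime.eq_one_of_dvd (hcop.pow_right (u + 1)) h5
  omega

open Bim

variable {n : ℕ} {H : Fin n → List (Fin n)} {b0 : List (Fin n)} {lam : ℝ} {l : Fin n → ℝ}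

variable [HInj H] (hw : PW H b0 lam l)

/-- **The formula `w e = w 0 * w q` with `e ∣ q`.** -/
theorem f0_letters {N : ℕ} (hnf : NF H b0 N) {j0 e : ℕ} (hc : Cls H b0 j0 e) {q : ℤ}
    (hrel : (tkN hw).w e = (tkN hw).w 0 * (tkN hw).w q) (hq : (e : ℤ) ∣ q) :
    ∀ i < n, (it H i b0).length = 1 := by
  have hD := cls_D hw (fun a => ne_of_inj hnf.inj a) hc
  have hP := cls_P hw hnf hc
  have he := hc.1
  have hL := (tkN hw).len_w0
  have hlen := congrArg (tkN hw).len hrel
  rw [(tkN hw).len_mul, (tkN hw).len_w, (tkN hw).len_w, (tkN hw).len_w, zpow_natCast, zpow_zero,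
    ← add_mul] at hlen
  have hlen2 : (tkN hw).lam ^ e = 1 + (tkN hw).lam ^ q := mul_right_cancel₀ hL.ne' hlen
  have hrelp : (tkN hw).w e = (tkN hw).w 0 * (tkN hw).pr [q] := by
    rw [hrel, Tk.pr_cons, Tk.pr_nil, mul_one]
  -- `q ≤ 0`
  obtain ⟨z, hz⟩ := hq
  have hz0 : z ≤ 0 := by
    by_contra hcon
    push Not at hcon
    have h1 : (e : ℤ) * 1 ≤ e * z := mul_le_mul_of_nonneg_left (by omega) (by omega)
    have h2 := Tk.lam_e_le (S := tkN hw) (e := e) (k := q) (by rw [hz]; linarith)
    linarith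
  obtain ⟨u, hu⟩ : ∃ u : ℕ, (u : ℤ) = -z := ⟨(-z).toNat, Int.toNat_of_nonneg (by omega)⟩
  have hqu : q = -((u * e : ℕ) : ℤ) := by
    rw [hz]
    push_cast
    rw [hu]
    ring
  have he' : (0 : ℤ) < e := by exact_mod_cast he
  refine letters_of_code hw hnf (h := u * e) hrelp ?_ ?_
  · intro j hj
    have hue : (0 : ℤ) ≤ ((u * e : ℕ) : ℤ) := Int.natCast_nonneg _
    rcases List.mem_cons.1 hj with h1 | h1
    · subst h1
      exact ⟨by linarith, he'⟩
    · rw [List.mem_singleton] at h1
      rw [h1, hqu]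
      exact ⟨le_rfl, by linarith⟩
  · intro U V hU hV heq
    have hcast : ∀ W : List ℕ, (∀ j ∈ W, j < e + u * e) →
        ∀ j ∈ W.map (fun k : ℕ => (k : ℤ)), 0 ≤ j ∧ j < (u + 1) * e := by
      intro W hW j hj
      obtain ⟨k, hk, rfl⟩ := List.mem_map.1 hj
      refine ⟨Int.natCast_nonneg k, ?_⟩
      have h1 : (k : ℤ) < ((e + u * e : ℕ) : ℤ) := by exact_mod_cast hW k hk
      push_cast at h1
      linarith
    have hinj : Function.Injective (List.map (fun k : ℕ => (k : ℤ))) :=
      List.map_injective_iff.2 Nat.cast_injective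
    apply hinj
    rcases Nat.eq_zero_or_pos u with h0 | h0
    · refine Tk.D.code hD ?_ ?_ heq
      · intro j hj
        have := hcast U hU j hj
        rwa [h0, Nat.cast_zero, zero_add, one_mul] at this
      · intro j hj
        have := hcast V hV j hj
        rwa [h0, Nat.cast_zero, zero_add, one_mul] at this
    · have hF : (tkN hw).F0 e u := by
        refine ⟨by rw [hrel, hqu], hP, hD, he, h0, ?_⟩
        intro hcomm
        have e0 : (tkN hw).w 0 = Col.mk H 0 b0 := by
          have := tkN_nat hw 0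
          rwa [Nat.cast_zero, it_zero] at this
        rw [tkN_nat, e0, Col.mk_mul_mk, Col.mk_mul_mk] at hcomm
        have h1 := comm_lw l _ _ _ rfl (Col.mk_inj hcomm)
        rw [hw.lw_w, hw.ax] at h1
        -- `|b_e| = |b_0| lam ^ e`
        have hb0 : 0 < b0.length := List.length_pos_of_ne_nil hnf.ne
        have hb0R : (0 : ℝ) < b0.length := by exact_mod_cast hb0
        have h2 : lam ^ e = ((it H e b0).length : ℝ) / b0.length := by
          rw [eq_div_iff hb0R.ne']
          linarith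
        have h3 : (tkN hw).lam = lam := rfl
        have hmu : 1 < lam ^ e := one_lt_pow₀ hw.one_lt he.ne'
        have h4 : b0.length < (it H e b0).length := by
          rw [h2, lt_div_iff₀ hb0R, one_mul] at hmu
          exact_mod_cast hmu
        refine no_rat hb0 h4 h0 ?_
        rw [← h2]
        rw [h3, hqu, zpow_neg, zpow_natCast, Nat.mul_comm, pow_mul] at hlen2
        have h5 : 0 < (lam ^ e) ^ u := pow_pos (by linarith) u
        rw [show lam ^ e - 1 = ((lam ^ e) ^ u)⁻¹ by linarith, mul_inv_cancel₀ h5.ne']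
      exact hF.code (hcast U hU) (hcast V hV) heq

/-- **Normal forms whose greedy rest is a token**, all cases. -/
theorem ga_letters' {N : ℕ} (hnf : NF H b0 N) {j0 e : ℕ} (hc : Cls H b0 j0 e) {is : List ℤ}
    {q : ℤ} (hgr : (tkN hw).Grd e is)
    (hrel : (tkN hw).w e = (tkN hw).w 0 * (tkN hw).pr is * (tkN hw).w q)
    (hmin : ∀ js, (tkN hw).IsP e js → (tkN hw).Cvr e ((tkN hw).w e) js → is.length ≤ js.length) :
    ∀ i < n, (it H i b0).length = 1 := by
  by_cases h1 : is = []
  · by_cases h2 : (e : ℤ) ∣ q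
    · rw [h1, Tk.pr_nil, mul_one] at hrel
      exact f0_letters hw hnf hc hrel h2
    · exact ga_letters hw hnf hc hgr hrel hmin (Or.inr h2)
  · exact ga_letters hw hnf hc hgr hrel hmin (Or.inl h1)

end D0L
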