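import Pool.Agent.H.MP_374efc_lc.Cr.Inst
import Pool.Agent.H.MP_374efc_lc.Pn.P1

/-!
# MP_374efc_lc: the properties P and D and the crossing for normal forms

In a normal form with classes mod `e`: tokens of different classes have no common left divisor (`cls_D`), `w 0` is a
left divisor of `w e` (`cls_P`), the tokens generate the colimit (`all_tok`), and the greedy path covers `w e`
(`greedy_cover`).
-/

set_option autoImplicit false

namespace D0L

open Bim

variable {n : ℕ} {H : Fin n → List (Fin n)} {b0 : List (Fin n)} {lam : ℝ} {l : Fin n → ℝ}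

/-- The classes of the first letters of the words `w_k`, `k ≥ j0`, are the classes mod `e`. -/
def Cls (H : Fin n → List (Fin n)) (b0 : List (Fin n)) (j0 e : ℕ) : Prop :=
  0 < e ∧ ∀ k k', j0 ≤ k → j0 ≤ k' →
    ((it H k b0).head? = (it H k' b0).head? ↔ (e : ℤ) ∣ k - k')

variable [HInj H] (hw : PW H b0 lam l) {j0 e : ℕ}

include hw in
theorem cls_D (hne : ∀ a, H a ≠ []) (hc : Cls H b0 j0 e) : (tkN hw).D e := by
  intro i j x hx hi hj
  obtain ⟨K, hK⟩ := Col.rep_ge x
  obtain ⟨L, hL⟩ : ∃ L : ℕ, K ≤ L ∧ (j0 : ℤ) ≤ L + i ∧ (j0 : ℤ) ≤ L + j := by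
    refine ⟨K + j0 + i.natAbs + j.natAbs, by omega, ?_, ?_⟩ <;> omega
  obtain ⟨hL1, hL2, hL3⟩ := hL
  obtain ⟨u, rfl⟩ := hK L hL1
  have hu : u ≠ [] := fun h => hx (Col.mk_eq_one.2 h)
  rw [tkN_w' hw (L := L) (by omega)] at hi hj
  obtain ⟨d, hd⟩ := Col.mk_dvd.1 hi
  obtain ⟨d', hd'⟩ := Col.mk_dvd.1 hj
  have hpre : ∀ (c : ℕ) {x y : List (Fin n)}, x <+: y → it H c x <+: it H c y := by
    rintro c x y ⟨z, rfl⟩
    rw [it_append]
    exact List.prefix_append _ _
  have h1 := hpre d' hd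
  have h2 := hpre d hd'
  rw [← it_add, ← it_add, ← it_add] at h1 h2
  rw [Nat.add_comm d d'] at h2
  have hne2 : it H (d' + d) u ≠ [] := by
    intro h
    have h3 := length_le_it hne (d' + d) u
    rw [h, List.length_nil] at h3
    exact hu (List.length_eq_zero_iff.1 (Nat.le_zero.1 h3))
  have hhd : ∀ {x y : List (Fin n)}, x <+: y → x ≠ [] → x.head? = y.head? := by
    rintro x y ⟨z, rfl⟩ hx
    obtain ⟨a, s, rfl⟩ := List.exists_cons_of_ne_nil hx
    rfl
  have h3 : (it H (d' + d + (L + i).toNat) b0).head? =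
      (it H (d' + d + (L + j).toNat) b0).head? := by
    rw [← hhd h1 hne2]
    exact hhd h2 hne2
  have h4 := (hc.2 _ _ (by omega) (by omega)).1 h3
  have h5 : ((d' + d + (L + i).toNat : ℕ) : ℤ) - ((d' + d + (L + j).toNat : ℕ) : ℤ) = i - j := by
    push_cast
    rw [Int.toNat_of_nonneg (by omega), Int.toNat_of_nonneg (by omega)]
    ring
  rwa [h5] at h4

/-- The words `w_j` at one level. -/
theorem mk_flat (K : ℕ) (js : List ℕ) :
    Col.mk H K ((js.map fun j => it H j b0).flatten) =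
      (tkN hw).pr (js.map fun j : ℕ => (j : ℤ) - K) := by
  induction js with
  | nil => exact Col.mk_nil K
  | cons j js ih =>
    rw [List.map_cons, List.flatten_cons, ← Col.mk_mul_mk, ih, List.map_cons, Tk.pr_cons, tkN_w]

include hw in
theorem cls_P {N : ℕ} (hnf : NF H b0 N) (hc : Cls H b0 j0 e) : (tkN hw).P e := by
  obtain ⟨S, hS⟩ : ∃ S, S = tkN hw := ⟨_, rfl⟩
  rw [← hS]
  have hne := fun a => ne_of_inj hnf.inj a
  have hD := cls_D hw hne hc
  rw [← hS] at hD
  -- a relation gives `w 0 ∣ w (m e)`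
  obtain ⟨js, h1, h2, h3⟩ := hnf.rel
  obtain ⟨j1, js', rfl⟩ := List.exists_cons_of_ne_nil h1
  have hj1 : j1 < N := h2 j1 List.mem_cons_self
  have hdiv : S.w j1 ∣ S.w N := by
    have e1 : S.w (j1 : ℤ) = Col.mk H 0 (it H j1 b0) := by
      have := tkN_w hw 0 j1
      rw [← hS] at this
      simpa using this
    have e2 : S.w (N : ℤ) = Col.mk H 0 (it H N b0) := by
      have := tkN_w hw 0 N
      rw [← hS] at this
      simpa using this
    rw [e1, e2, h3, List.map_cons, List.flatten_cons, ← Col.mk_mul_mk]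
    exact Dvd.intro _ rfl
  have hcl := hD N j1 (S.w j1) (by
    intro h
    have h4 := S.len_w j1
    rw [h, S.len_one] at h4
    have h5 := S.len_w0
    have h6 := zpow_pos S.lam_pos (j1 : ℤ)
    have := mul_pos h6 h5
    linarith) hdiv dvd_rfl
  obtain ⟨m, hm⟩ := hcl
  have he := hc.1
  have hm0 : 0 < m := by
    have : (0 : ℤ) < e * m := by rw [← hm]; omega
    by_contra hcon
    push Not at hcon
    have : (e : ℤ) * m ≤ 0 := mul_nonpos_of_nonneg_of_nonpos (by omega) hcon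
    omega
  have hdiv2 : S.w 0 ∣ S.w (e * m) := by
    have h4 := (S.s_dvd (k := -(j1 : ℤ))).2 hdiv
    rw [S.s_w, S.s_w, neg_add_cancel, neg_add_eq_sub, hm] at h4
    exact h4
  -- iterate
  have hiter : ∀ (k : ℤ) (q : ℕ), S.w k ∣ S.w (k + q * (e * m)) := by
    intro k q
    induction q with
    | zero => simp
    | succ q ih =>
      refine ih.trans ?_
      have h4 := (S.s_dvd (k := k + q * (e * m))).2 hdiv2
      rw [S.s_w, S.s_w, add_zero] at h4
      have h5 : k + ((q + 1 : ℕ) : ℤ) * (e * m) = k + q * (e * m) + e * m := by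
        push_cast
        ring
      rw [h5]
      exact h4
  -- the common first letter
  have hitne : ∀ k, it H k b0 ≠ [] := by
    intro k h
    have h4 := length_le_it hne k b0
    rw [h, List.length_nil] at h4
    exact hnf.ne (List.length_eq_zero_iff.1 (Nat.le_zero.1 h4))
  obtain ⟨c, s, hcs⟩ := List.exists_cons_of_ne_nil (hitne j0)
  obtain ⟨c', s', hcs'⟩ := List.exists_cons_of_ne_nil (hitne (j0 + e))
  have hcc : c' = c := by
    have h4 := (hc.2 (j0 + e) j0 (by omega) le_rfl).2 ⟨1, by push_cast; ring⟩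
    rw [hcs, hcs'] at h4
    simpa using h4
  obtain ⟨z, hz⟩ : ∃ z, z = Col.mk H 0 [c] := ⟨_, rfl⟩
  have hz1 : z ∣ S.w (j0 : ℤ) := by
    have e1 := tkN_w hw 0 j0
    rw [← hS] at e1
    simp only [Nat.cast_zero, sub_zero] at e1
    rw [e1, hcs, hz]
    exact ⟨Col.mk H 0 s, by rw [Col.mk_mul_mk]; rfl⟩
  have hz2 : z ∣ S.w ((j0 : ℤ) + e) := by
    have e1 := tkN_w hw 0 (j0 + e)
    rw [← hS] at e1
    simp only [Nat.cast_zero, sub_zero] at e1
    push_cast at e1
    rw [e1, hcs', hcc, hz]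
    exact ⟨Col.mk H 0 s', by rw [Col.mk_mul_mk]; rfl⟩
  have hzne : z ≠ 1 := by
    rw [hz]
    intro h
    exact absurd (Col.mk_eq_one.1 h) (by simp)
  obtain ⟨q, hq⟩ : ∃ q : ℕ, S.len (S.w ((j0 : ℤ) + e)) < S.lam ^ q * S.len z := by
    obtain ⟨q, hq⟩ := pow_unbounded_of_one_lt (S.len (S.w ((j0 : ℤ) + e)) / S.len z) S.one_lt
    exact ⟨q, (div_lt_iff₀ (S.len_pos z hzne)).1 hq⟩
  obtain ⟨M, hM⟩ : ∃ M : ℕ, (M : ℤ) = q * (e * m) :=
    ⟨(q * (e * m)).toNat, Int.toNat_of_nonneg (by positivity)⟩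
  have hqM : q ≤ M := by
    have h4 : (q : ℤ) * 1 ≤ q * (e * m) := by
      refine mul_le_mul_of_nonneg_left ?_ (by positivity)
      have : (1 : ℤ) * 1 ≤ e * m := mul_le_mul (by omega) (by omega) (by omega) (by omega)
      linarith
    omega
  have hlenz : S.len (S.w ((j0 : ℤ) + e)) < S.len (S.s (M : ℤ) z) := by
    rw [S.len_s, zpow_natCast]
    refine lt_of_lt_of_le hq ?_
    exact mul_le_mul_of_nonneg_right (pow_le_pow_right₀ S.one_lt.le hqM) (S.len_nonneg z)
  have hlen12 : S.len (S.w (j0 : ℤ)) < S.len (S.w ((j0 : ℤ) + e)) := by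
    rw [S.len_w, S.len_w]
    have h4 : S.lam ^ (j0 : ℤ) < S.lam ^ ((j0 : ℤ) + e) :=
      zpow_lt_zpow_right₀ S.one_lt (by omega)
    exact mul_lt_mul_of_pos_right h4 S.len_w0
  have key : ∀ k : ℤ, z ∣ S.w k → S.len (S.w k) < S.len (S.s (M : ℤ) z) →
      S.w k ∣ S.s (M : ℤ) z := by
    intro k hk hlt
    have h4 := hiter k q
    rw [← hM] at h4
    have h5 : S.s (M : ℤ) z ∣ S.w (k + M) := by
      have h6 := (S.s_dvd (k := (M : ℤ))).2 hk
      rwa [S.s_w, add_comm] at h6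
    rcases S.total _ _ _ h4 h5 with h6 | h6
    · exact h6
    · have := S.dvd_len h6
      linarith
  have hA := key _ hz1 (hlen12.trans hlenz)
  have hB := key _ hz2 hlenz
  have hfin : S.w (j0 : ℤ) ∣ S.w ((j0 : ℤ) + e) := by
    rcases S.total _ _ _ hA hB with h6 | h6
    · exact h6
    · have := S.dvd_len h6
      linarith
  have h7 := (S.s_dvd (k := -(j0 : ℤ))).2 hfin
  rw [S.s_w, S.s_w, neg_add_cancel, neg_add_cancel_left] at h7
  exact h7

/-- The tokens generate the colimit. -/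
theorem all_tok {N : ℕ} (hnf : NF H b0 N) (x : Col H) : ∃ is, x = (tkN hw).pr is := by
  obtain ⟨K, hK⟩ := p1 n N H b0 hnf
  obtain ⟨k, u, rfl⟩ := Col.rep x
  have h1 : TkM H b0 (it H K u) := by
    have h2 : it H K u = (u.map fun a => it H K [a]).flatten := by
      induction u with
      | nil => exact it_nil H K
      | cons a u ih => rw [Z1_it_cons, ih, List.map_cons, List.flatten_cons]
    rw [h2]
    apply TkM.flatten
    intro z hz
    obtain ⟨a, -, rfl⟩ := List.mem_map.1 hz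
    exact hK a
  obtain ⟨js, hjs⟩ := h1
  refine ⟨js.map fun j : ℕ => (j : ℤ) - ((K + k : ℕ) : ℤ), ?_⟩
  rw [← mk_flat, ← hjs, Col.mk_lift]

/-- **The greedy path covers `w e`**: there is a greedy path `w 0 * pr is` on `R_0`, of least length among the paths
which cover `w e`; it ends properly before `w e`, and the rest `y` lies on the ray which leaves its end. -/
theorem greedy_cover {N : ℕ} (hnf : NF H b0 N) (hc : Cls H b0 j0 e) :
    ∃ (is : List ℤ) (j : ℤ) (y : Col H), (tkN hw).Grd e is ∧ y ≠ 1 ∧ y ∈ (tkN hw).R e j ∧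
      (tkN hw).w e = (tkN hw).w 0 * (tkN hw).pr is * y ∧
      ∀ js, (tkN hw).IsP e js → (tkN hw).Cvr e ((tkN hw).w e) js → is.length ≤ js.length := by
  classical
  obtain ⟨S, hS⟩ : ∃ S, S = tkN hw := ⟨_, rfl⟩
  have hP := cls_P hw hnf hc
  rw [← hS] at hP ⊢
  have he := hc.1
  have hweR : S.w e ∈ S.R e 0 := by
    have h1 := Tk.w_mem_R (S := S) (e := e) (e : ℤ)
    have h2 := Tk.R_add (S := S) (e := e) 0 1
    rw [zero_add, one_mul] at h2
    rwa [h2] at h1
  -- some path covers `w e`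
  have hex : ∃ m, ∃ js, js.length = m ∧ S.IsP e js ∧ S.Cvr e (S.w e) js := by
    obtain ⟨ρ, hρ⟩ := hP
    obtain ⟨js, hjs⟩ := all_tok hw hnf ρ
    rw [← hS] at hjs
    refine ⟨_, js, rfl, ?_, ?_⟩
    · rw [Tk.IsP, ← hjs, ← hρ]
      exact hweR
    · refine ⟨hweR, Or.inl ?_⟩
      rw [← hjs, ← hρ]
  obtain ⟨is, hlen, hp, hcv⟩ := Nat.find_spec hex
  have hmin : ∀ js, S.IsP e js → S.Cvr e (S.w e) js → is.length ≤ js.length := by
    intro js h1 h2
    rw [hlen]
    exact Nat.find_min' hex ⟨js, rfl, h1, h2⟩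
  have hgrd := hP.crossing he dvd_rfl hp hcv hmin
  have hnot : ¬ S.w e ∣ S.w 0 * S.pr is := by
    intro hdv
    rcases List.eq_nil_or_concat is with rfl | ⟨is', i, rfl⟩
    · rw [Tk.pr_nil, mul_one] at hdv
      have h1 := S.dvd_len hdv
      rw [S.len_w, S.len_w, zpow_natCast, zpow_zero, one_mul] at h1
      have h2 : 1 < S.lam ^ e := one_lt_pow₀ S.one_lt he.ne'
      have h3 := S.len_w0
      nlinarith
    · have h1 : S.IsP e is' := Tk.IsP.pre (js := [i]) (by simpa using hp)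
      have h2 : S.w 0 * S.pr (is'.concat i) ∈ S.I e (S.w 0 * S.pr is') := by
        refine ⟨hp, Or.inr ⟨i, S.w i, Tk.w_mem_R _, ?_⟩⟩
        rw [List.concat_eq_append, Tk.pr_append, Tk.pr_cons, Tk.pr_nil, mul_one, mul_assoc]
      have h3 := hmin is' h1 (hP.I_down h1 h2 hdv)
      simp at h3
  obtain ⟨-, h4⟩ := hcv
  rcases h4 with h4 | ⟨j, y, hy, h4⟩
  · exact absurd h4 hnot
  · refine ⟨is, j, y, hgrd, ?_, hy, h4, hmin⟩
    rintro rfl
    rw [mul_one] at h4
    exact hnot ⟨1, by rw [mul_one, h4]⟩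

omit [HInj H] in
/-- The data of a normal form: an instance of injectivity, Perron weights, classes. -/
theorem nf_data {N : ℕ} (hnf : NF H b0 N) : ∃ (_ : HInj H) (lam : ℝ) (l : Fin n → ℝ) (j0 e : ℕ),
    PW H b0 lam l ∧ j0 + e = n ∧ Cls H b0 j0 e := by
  obtain ⟨lam, l, hw⟩ := perron hnf
  obtain ⟨j0, e, he, hn, hcl⟩ := head_cls hnf
  exact ⟨⟨hnf.inj⟩, lam, l, j0, e, hw, hn, he, hcl⟩

end D0L
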