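import Mathlib

/-!
# MP_374efc_lc: token paths on the rays, the crossing lemma

Abstract setting: a cancellative monoid `C` with a length, an automorphism `t` which multiplies the length by
`lam > 1`, left divisors of one element are comparable; the tokens are `w k = t^k w`.  `P`: `w 0` is a left divisor of
`w e`; `D`: tokens of different classes mod `e` have no common left divisor.

`crossing`: a token path on `R_0` which starts with `w 0`, covers `x ∣ w e` and has the least number of tokens uses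
at every cut the largest legal token.  Paper: helper69, helper10 (ATTAINED CROSSING LEMMA), helper95.
-/

set_option autoImplicit false

namespace D0L

/-- A cancellative monoid with length, scaling automorphism and token. -/
structure Tk (C : Type) [CancelMonoid C] where
  /-- the automorphism -/
  t : MulAut C
  /-- the token -/
  w0 : C
  /-- the length -/
  len : C → ℝ
  /-- the factor -/
  lam : ℝ
  one_lt : 1 < lam
  len_mul : ∀ x y, len (x * y) = len x + len y
  len_pos : ∀ x, x ≠ 1 → 0 < len x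
  len_t : ∀ x, len (t x) = lam * len x
  total : ∀ x y z : C, x ∣ z → y ∣ z → x ∣ y ∨ y ∣ x
  w_ne : w0 ≠ 1

namespace Tk

variable {C : Type} [CancelMonoid C] (S : Tk C)

/-- The shift `t^k`. -/
def s (k : ℤ) : MulAut C := S.t ^ k

/-- The tokens. -/
def w (k : ℤ) : C := S.s k S.w0

theorem s_add (k l : ℤ) (x : C) : S.s (k + l) x = S.s k (S.s l x) := by
  rw [s, zpow_add, MulAut.mul_apply]
  rfl

theorem s_zero (x : C) : S.s 0 x = x := by
  rw [s, zpow_zero]
  rfl

theorem s_neg (k : ℤ) (x : C) : S.s (-k) (S.s k x) = x := by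
  rw [← S.s_add, neg_add_cancel, S.s_zero]

theorem s_neg' (k : ℤ) (x : C) : S.s k (S.s (-k) x) = x := by
  rw [← S.s_add, add_neg_cancel, S.s_zero]

theorem s_w (k l : ℤ) : S.s k (S.w l) = S.w (k + l) := (S.s_add k l S.w0).symm

theorem s_inj {k : ℤ} {x y : C} (h : S.s k x = S.s k y) : x = y := (S.s k).injective h

theorem s_dvd {k : ℤ} {x y : C} : S.s k x ∣ S.s k y ↔ x ∣ y := by
  constructor
  · rintro ⟨z, hz⟩
    refine ⟨S.s (-k) z, ?_⟩
    have h1 := congrArg (S.s (-k)) hz
    rwa [map_mul, S.s_neg, S.s_neg] at h1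
  · rintro ⟨z, rfl⟩
    exact ⟨S.s k z, map_mul _ _ _⟩

theorem len_one : S.len 1 = 0 := by
  have := S.len_mul 1 1
  rw [mul_one] at this
  linarith

theorem len_nonneg (x : C) : 0 ≤ S.len x := by
  by_cases hx : x = 1
  · rw [hx, S.len_one]
  · exact (S.len_pos x hx).le

theorem lam_pos : 0 < S.lam := lt_trans one_pos S.one_lt

theorem len_nat (k : ℕ) (x : C) : S.len ((S.t ^ k) x) = S.lam ^ k * S.len x := by
  induction k with
  | zero => simp
  | succ k ih =>
    rw [pow_succ', MulAut.mul_apply, S.len_t, ih, pow_succ]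
    ring

theorem len_s (k : ℤ) (x : C) : S.len (S.s k x) = S.lam ^ k * S.len x := by
  rcases Int.eq_nat_or_neg k with ⟨m, rfl | rfl⟩
  · rw [s, zpow_natCast, S.len_nat, zpow_natCast]
  · have h1 := S.len_nat m (S.s (-(m : ℤ)) x)
    have h2 : (S.t ^ m) (S.s (-(m : ℤ)) x) = x := by
      have := S.s_neg' m x
      rwa [s, zpow_natCast] at this
    rw [h2] at h1
    rw [zpow_neg, zpow_natCast, h1, ← mul_assoc, inv_mul_cancel₀ (pow_pos S.lam_pos m).ne',
      one_mul]

theorem len_w (k : ℤ) : S.len (S.w k) = S.lam ^ k * S.len S.w0 := S.len_s k _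

theorem len_w0 : 0 < S.len S.w0 := S.len_pos _ S.w_ne

theorem dvd_len {x y : C} (h : x ∣ y) : S.len x ≤ S.len y := by
  obtain ⟨z, rfl⟩ := h
  rw [S.len_mul]
  have := S.len_nonneg z
  linarith

/-- Proper left divisors are shorter. -/
theorem dvd_len_lt (S : Tk C) {x y : C} (h : x ∣ y) (hne : x ≠ y) : S.len x < S.len y := by
  obtain ⟨z, rfl⟩ := h
  have h1 : z ≠ 1 := by
    rintro rfl
    rw [mul_one] at hne
    exact hne rfl
  rw [S.len_mul]
  have := S.len_pos z h1
  linarith

include S in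
theorem dvd_antisymm {x y : C} (h1 : x ∣ y) (h2 : y ∣ x) : x = y := by
  by_contra hne
  have h3 := S.dvd_len_lt h1 hne
  have h4 := S.dvd_len h2
  linarith

theorem mul_dvd_iff {x y z : C} : x * y ∣ x * z ↔ y ∣ z := by
  constructor
  · rintro ⟨a, ha⟩
    refine ⟨a, ?_⟩
    rw [mul_assoc] at ha
    exact mul_left_cancel ha
  · exact fun h => mul_dvd_mul_left x h

/-! ### rays -/

variable (e : ℕ)

/-- Left divisors of the ray of class `c`. -/
def R (c : ℤ) : Set C := {x | ∃ m : ℤ, x ∣ S.w (c + m * e)}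

/-- `w 0` is a left divisor of `w e`. -/
def P : Prop := S.w 0 ∣ S.w e

/-- Tokens of different classes have no common left divisor. -/
def D : Prop := ∀ i j : ℤ, ∀ x, x ≠ 1 → x ∣ S.w i → x ∣ S.w j → (e : ℤ) ∣ i - j

variable {S e}

theorem P.w (hP : S.P e) (k : ℤ) : S.w k ∣ S.w (k + e) := by
  have h1 := (S.s_dvd (k := k)).2 hP
  rwa [S.s_w, S.s_w, add_zero] at h1

theorem P.mul (hP : S.P e) (k : ℤ) (m : ℕ) : S.w k ∣ S.w (k + m * e) := by
  induction m with
  | zero => simp
  | succ m ih =>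
    refine ih.trans ?_
    have h1 := hP.w (k + m * e)
    have h2 : k + ((m + 1 : ℕ) : ℤ) * e = k + m * e + e := by
      push_cast
      ring
    rw [h2]
    exact h1

theorem P.le (hP : S.P e) {k m m' : ℤ} (h : m ≤ m') : S.w (k + m * e) ∣ S.w (k + m' * e) := by
  obtain ⟨d, rfl⟩ : ∃ d : ℕ, m' = m + d := ⟨(m' - m).toNat, by omega⟩
  have h1 := hP.mul (k + m * e) d
  rwa [show k + m * e + d * e = k + (m + d) * e by ring] at h1

theorem R_down {c : ℤ} {x y : C} (hxy : x ∣ y) (hy : y ∈ S.R e c) : x ∈ S.R e c := by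
  obtain ⟨m, hm⟩ := hy
  exact ⟨m, hxy.trans hm⟩

theorem w_mem_R (k : ℤ) : S.w k ∈ S.R e k := ⟨0, by simp⟩

theorem R_add (c m : ℤ) : S.R e (c + m * e) = S.R e c := by
  ext x
  constructor
  · rintro ⟨l, hl⟩
    exact ⟨m + l, by rwa [show c + (m + l) * e = c + m * e + l * e by ring]⟩
  · rintro ⟨l, hl⟩
    exact ⟨l - m, by rwa [show c + m * e + (l - m) * e = c + l * e by ring]⟩

theorem R_s {c k : ℤ} {x : C} : S.s k x ∈ S.R e (c + k) ↔ x ∈ S.R e c := by
  constructor
  · rintro ⟨m, hm⟩
    refine ⟨m, ?_⟩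
    rw [show c + k + m * e = k + (c + m * e) by ring, ← S.s_w, S.s_dvd] at hm
    exact hm
  · rintro ⟨m, hm⟩
    refine ⟨m, ?_⟩
    rw [show c + k + m * e = k + (c + m * e) by ring, ← S.s_w, S.s_dvd]
    exact hm

theorem P.R_total (hP : S.P e) {c : ℤ} {x y : C} (hx : x ∈ S.R e c) (hy : y ∈ S.R e c) :
    x ∣ y ∨ y ∣ x := by
  obtain ⟨m, hm⟩ := hx
  obtain ⟨m', hm'⟩ := hy
  rcases le_total m m' with h | h
  · exact S.total x y _ (hm.trans (hP.le h)) hm'
  · exact S.total x y _ hm (hm'.trans (hP.le h))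

/-! ### covered sets and paths -/

/-- The elements of `R_0` covered by the cut `v`: the left divisors of `v` and the common part of `R_0` with the
ray which leaves `v`. -/
def I (S : Tk C) (e : ℕ) (v : C) : Set C :=
  {x | x ∈ S.R e 0 ∧ (x ∣ v ∨ ∃ (j : ℤ) (y : C), y ∈ S.R e j ∧ x = v * y)}

/-- The product of tokens. -/
def pr (S : Tk C) (is : List ℤ) : C := (is.map S.w).prod

theorem pr_nil : S.pr [] = 1 := rfl

theorem pr_cons (i : ℤ) (is : List ℤ) : S.pr (i :: is) = S.w i * S.pr is := by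
  simp [pr]

theorem pr_append (is js : List ℤ) : S.pr (is ++ js) = S.pr is * S.pr js := by
  simp [pr]

theorem s_pr (k : ℤ) (is : List ℤ) : S.s k (S.pr is) = S.pr (is.map (k + ·)) := by
  induction is with
  | nil => simp [pr_nil]
  | cons i is ih => rw [pr_cons, map_mul, ih, List.map_cons, pr_cons, S.s_w]

theorem P.I_down (hP : S.P e) {v x y : C} (hv : v ∈ S.R e 0) (hy : y ∈ S.I e v)
    (hxy : x ∣ y) : x ∈ S.I e v := by
  obtain ⟨h1, h2⟩ := hy
  refine ⟨R_down hxy h1, ?_⟩
  rcases h2 with h2 | ⟨j, z, hz, rfl⟩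
  · exact Or.inl (hxy.trans h2)
  · rcases hP.R_total (R_down hxy h1) hv with h3 | h3
    · exact Or.inl h3
    · obtain ⟨u, rfl⟩ := h3
      exact Or.inr ⟨j, u, R_down (mul_dvd_iff.1 hxy) hz, rfl⟩

/-- A path on `R_0` which starts with the token `w 0`. -/
def IsP (S : Tk C) (e : ℕ) (is : List ℤ) : Prop := S.w 0 * S.pr is ∈ S.R e 0

/-- The path covers `x`. -/
def Cvr (S : Tk C) (e : ℕ) (x : C) (is : List ℤ) : Prop := x ∈ S.I e (S.w 0 * S.pr is)

/-- The path uses the largest legal token at every cut. -/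
def Grd (S : Tk C) (e : ℕ) (is : List ℤ) : Prop :=
  ∀ is1 i is2, is = is1 ++ i :: is2 → S.w 0 * S.pr is1 * S.w (i + e) ∉ S.R e 0

theorem IsP.pre {is js : List ℤ} (h : S.IsP e (is ++ js)) : S.IsP e is := by
  refine R_down ?_ h
  rw [pr_append, ← mul_assoc]
  exact Dvd.intro _ rfl

/-- **Crossing lemma** (attained form). -/
theorem P.crossing (hP : S.P e) (he : 0 < e) {x : C} (hx : x ∣ S.w e) {is : List ℤ}
    (hp : S.IsP e is) (hc : S.Cvr e x is)
    (hmin : ∀ js, S.IsP e js → S.Cvr e x js → is.length ≤ js.length) : S.Grd e is := by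
  intro is1 i is2 his hy
  have hR0 : S.w 0 ∈ S.R e 0 := w_mem_R 0
  have hwe : S.w e ∈ S.R e 0 := by
    have := w_mem_R (S := S) (e := e) (e : ℤ)
    have h2 := R_add (S := S) (e := e) 0 1
    rw [zero_add, one_mul] at h2
    rwa [h2] at this
  obtain ⟨vm, hvm⟩ : ∃ vm, vm = S.w 0 * S.pr is1 := ⟨_, rfl⟩
  rw [← hvm] at hy
  have hvmR : vm ∈ S.R e 0 := R_down (Dvd.intro _ rfl) hy
  have hpm : S.IsP e is1 := by
    rw [his] at hp
    exact hp.pre
  have hxR : x ∈ S.R e 0 := R_down hx hwe
  -- `y = vm * w (i + e)` is covered by `vm`, `x` is not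
  have hyI : vm * S.w (i + e) ∈ S.I e vm :=
    ⟨hy, Or.inr ⟨i + e, S.w (i + e), w_mem_R _, rfl⟩⟩
  have hxI : x ∉ S.I e vm := by
    intro hxI
    have h1 := hmin is1 hpm (by rw [Cvr, ← hvm]; exact hxI)
    rw [his, List.length_append, List.length_cons] at h1
    omega
  have hyx : vm * S.w (i + e) ∣ x := by
    rcases hP.R_total hy hxR with h1 | h1
    · exact h1
    · exact absurd (hP.I_down hvmR hyI h1) hxI
  have hyC : S.Cvr e (vm * S.w (i + e)) is := hP.I_down hp hc hyx
  -- the first cut after `vm` which covers `y`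
  have hmin2 : ∃ js, (∃ ks, is2 = js ++ ks) ∧
      vm * S.w (i + e) ∈ S.I e (vm * S.w i * S.pr js) ∧
      ∀ js' ks', js = js' ++ ks' → ks' ≠ [] →
        vm * S.w (i + e) ∉ S.I e (vm * S.w i * S.pr js') := by
    have hex : ∃ m, m ≤ is2.length ∧
        vm * S.w (i + e) ∈ S.I e (vm * S.w i * S.pr (is2.take m)) := by
      refine ⟨is2.length, le_rfl, ?_⟩
      rw [List.take_length]
      have h1 : S.w 0 * S.pr is = vm * S.w i * S.pr is2 := by
        rw [his, pr_append, pr_cons, hvm]
        simp only [mul_assoc]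
      rw [Cvr, h1] at hyC
      exact hyC
    classical
    obtain ⟨h1, h2⟩ := Nat.find_spec hex
    refine ⟨is2.take (Nat.find hex), ⟨is2.drop (Nat.find hex), by rw [List.take_append_drop]⟩,
      h2, ?_⟩
    intro js' ks' h3 h4 h5
    have h6 : js'.length < Nat.find hex := by
      have := congrArg List.length h3
      rw [List.length_append, List.length_take] at this
      have := List.length_pos_of_ne_nil h4
      omega
    refine Nat.find_min hex h6 ⟨by omega, ?_⟩
    have h7 : is2.take js'.length = js' := by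
      have h8 := congrArg (List.take js'.length) h3
      rw [List.take_take, min_eq_left h6.le, List.take_left'] at h8
      · exact h8
      · rfl
    rw [h7]
    exact h5
  obtain ⟨js, ⟨ks, hks⟩, hjs, hjs'⟩ := hmin2
  -- all cuts up to this one lie before `y`
  have hbefore : ∀ js' ks', js = js' ++ ks' →
      vm * S.w i * S.pr js' ∣ vm * S.w (i + e) ∧ vm * S.w i * S.pr js' ≠ vm * S.w (i + e) := by
    intro js'
    induction js' using List.reverseRecOn with
    | nil =>
      intro ks' _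
      rw [pr_nil, mul_one]
      refine ⟨mul_dvd_iff.2 (hP.w i), ?_⟩
      intro h1
      have h2 := congrArg S.len (mul_left_cancel h1)
      rw [S.len_w, S.len_w, zpow_add₀ S.lam_pos.ne', zpow_natCast] at h2
      have h3 := S.len_w0
      have h4 : 0 < S.lam ^ i := zpow_pos S.lam_pos i
      have h5 : 1 < S.lam ^ e := one_lt_pow₀ S.one_lt he.ne'
      nlinarith [mul_pos h4 h3]
    | append_singleton js' j ih =>
      intro ks' h1
      have h0 : js = js' ++ (j :: ks') := by rw [h1]; simp
      obtain ⟨h2, h3⟩ := ih (j :: ks') h0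
      have h4 := hjs' js' (j :: ks') h0 (by simp)
      have hR1 : vm * S.w i * S.pr (js' ++ [j]) ∈ S.R e 0 := by
        refine R_down ?_ hp
        refine ⟨S.pr (ks' ++ ks), ?_⟩
        rw [his, hks, h1, hvm]
        simp only [pr_append, pr_cons, pr_nil, mul_one, mul_assoc]
      have hcut : vm * S.w i * S.pr (js' ++ [j]) ∈ S.I e (vm * S.w i * S.pr js') := by
        refine ⟨hR1, Or.inr ⟨j, S.w j, w_mem_R _, ?_⟩⟩
        simp only [pr_append, pr_cons, pr_nil, mul_one, mul_assoc]
      have hR2 : vm * S.w i * S.pr js' ∈ S.R e 0 := by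
        refine R_down ?_ hR1
        rw [pr_append, ← mul_assoc]
        exact Dvd.intro _ rfl
      rcases hP.R_total hR1 hy with h5 | h5
      · refine ⟨h5, ?_⟩
        intro h6
        rw [← h6] at h4
        exact h4 hcut
      · exact absurd (hP.I_down hR2 hcut h5) h4
  obtain ⟨hd1, hd2⟩ := hbefore js [] (by simp)
  -- the scaled path
  have hscale : S.s (-i) (S.w i * S.pr js) = S.w 0 * S.pr (js.map (-i + ·)) := by
    rw [map_mul, S.s_w, neg_add_cancel, s_pr]
  have hdiv : S.w 0 * S.pr (js.map (-i + ·)) ∣ S.w e := by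
    rw [← hscale]
    have h1 : S.w i * S.pr js ∣ S.w (i + e) := by
      rw [mul_assoc] at hd1
      exact mul_dvd_iff.1 hd1
    have h2 := (S.s_dvd (k := -i)).2 h1
    rwa [S.s_w, neg_add_cancel_left] at h2
  have hpath : S.IsP e (js.map (-i + ·)) := R_down hdiv hwe
  have hcov : S.Cvr e (S.w e) (js.map (-i + ·)) := by
    refine ⟨hwe, Or.inr ?_⟩
    obtain ⟨-, h1⟩ := hjs
    rcases h1 with h1 | ⟨j, z, hz, h1⟩
    · exact absurd (dvd_antisymm S hd1 h1) hd2
    · refine ⟨j - i, S.s (-i) z, ?_, ?_⟩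
      · rw [sub_eq_add_neg]
        exact R_s.2 hz
      · rw [← hscale, ← map_mul]
        have h2 : S.w (i + e) = S.w i * S.pr js * z := by
          rw [mul_assoc, mul_assoc] at h1
          rw [mul_assoc]
          exact mul_left_cancel h1
        rw [← h2, S.s_w, neg_add_cancel_left]
  have hfin := hmin _ hpath (hP.I_down hpath hcov hx)
  rw [List.length_map, his, hks, List.length_append, List.length_cons, List.length_append] at hfin
  omega

end Tk

end D0L
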