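import Pool.Agent.H.MP_374efc_lc.Cr.Col
import Pool.Agent.H.MP_374efc_lc.Cr.Tok
import Pool.Agent.H.MP_374efc_lc.Bim.Perron

/-!
# MP_374efc_lc: the colimit of a normal form with its tokens

`tkN hw` is the structure `Tk` of the colimit, `hw : PW H b0 lam l`.
-/

set_option autoImplicit false

namespace D0L

open Bim

variable {n : ℕ} {H : Fin n → List (Fin n)} {b0 : List (Fin n)} {lam : ℝ} {l : Fin n → ℝ}

/-- The length on the colimit. -/
noncomputable def colLen [HInj H] (hw : PW H b0 lam l) : Col H → ℝ :=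
  Quotient.lift (fun a => lw l a.2 / lam ^ a.1) (by
    rintro ⟨k, u⟩ ⟨m, v⟩ h
    change it H m u = it H k v at h
    have h1 := congrArg (lw l) h
    rw [hw.lw_it, hw.lw_it] at h1
    have h2 := pow_pos hw.lam_pos k
    have h3 := pow_pos hw.lam_pos m
    simp only
    rw [div_eq_div_iff h2.ne' h3.ne']
    linarith)

theorem colLen_mk [HInj H] (hw : PW H b0 lam l) (k : ℕ) (u : List (Fin n)) :
    colLen hw (Col.mk H k u) = lw l u / lam ^ k := rfl

/-- The structure of the colimit of a normal form. -/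
noncomputable def tkN [HInj H] (hw : PW H b0 lam l) : Tk (Col H) where
  t := Col.tau
  w0 := Col.mk H 0 b0
  len := colLen hw
  lam := lam
  one_lt := hw.one_lt
  len_mul x y := by
    obtain ⟨k, u, v, rfl, rfl⟩ := Col.rep2 x y
    rw [Col.mk_mul_mk, colLen_mk, colLen_mk, colLen_mk, lw_append, add_div]
  len_pos x hx := by
    obtain ⟨k, u, rfl⟩ := Col.rep x
    have hu : u ≠ [] := fun h => hx (Col.mk_eq_one.2 h)
    rw [colLen_mk]
    exact div_pos (lw_pos hw.pos hu) (pow_pos hw.lam_pos k)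
  len_t x := by
    obtain ⟨k, u, rfl⟩ := Col.rep x
    have h1 : (Col.tau : MulAut (Col H)) (Col.mk H k u) = Col.mk H k (app H u) := rfl
    rw [h1, colLen_mk, colLen_mk, hw.lw_app, mul_div_assoc]
  total x y z h1 h2 := Col.dvd_total h1 h2
  w_ne h := by
    have h1 := Col.mk_eq_one.1 h
    have h2 := hw.ax
    rw [h1, lw_nil] at h2
    exact zero_ne_one h2

variable [HInj H] (hw : PW H b0 lam l)

theorem tkN_s (k : ℤ) (x : Col H) : (tkN hw).s k x = Col.sft k x := rfl

/-- The tokens of index at least `-L` at level `L`. -/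
theorem tkN_w (L m : ℕ) : (tkN hw).w ((m : ℤ) - L) = Col.mk H L (it H m b0) := by
  have h1 : (tkN hw).w ((m : ℤ) - L) = Col.sft ((m : ℤ) + -(L : ℤ)) (Col.mk H 0 b0) := by
    rw [← sub_eq_add_neg]
    rfl
  rw [h1, Col.sft_add, Col.sft_neg_mk, Nat.zero_add, Col.sft_nat_mk]

theorem tkN_w' {i : ℤ} {L : ℕ} (h : 0 ≤ L + i) :
    (tkN hw).w i = Col.mk H L (it H (L + i).toNat b0) := by
  have h1 : i = ((L + i).toNat : ℤ) - L := by
    rw [Int.toNat_of_nonneg h]
    ring
  conv_lhs => rw [h1]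
  exact tkN_w hw L _

omit [HInj H] in
/-- The first letters of the words are periodic. -/
theorem head_cls {N : ℕ} (hnf : NF H b0 N) : ∃ j0 e : ℕ, 0 < e ∧ j0 + e = n ∧
    ∀ k k', j0 ≤ k → j0 ≤ k' → ((it H k b0).head? = (it H k' b0).head? ↔ (e : ℤ) ∣ k - k') := by
  obtain ⟨f, hf, hf'⟩ := hnf.first
  have hne := fun a => ne_of_inj hnf.inj a
  have hitne : ∀ k, it H k b0 ≠ [] := by
    intro k h
    have h1 := length_le_it hne k b0
    rw [h, List.length_nil] at h1
    exact hnf.ne (List.length_eq_zero_iff.1 (Nat.le_zero.1 h1))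
  obtain ⟨g, hg⟩ : ∃ g : ℕ → Fin n, ∀ k, ∃ s, it H k b0 = g k :: s := by
    choose g s hg using fun k => List.exists_cons_of_ne_nil (hitne k)
    exact ⟨g, fun k => ⟨s k, hg k⟩⟩
  have hstep : ∀ k k', g k = g k' → g (k + 1) = g (k' + 1) := by
    intro k k' h
    obtain ⟨s, hs⟩ := hg k
    obtain ⟨s', hs'⟩ := hg k'
    obtain ⟨u, hu⟩ := hg (k + 1)
    obtain ⟨u', hu'⟩ := hg (k' + 1)
    rw [it_succ, hs, app_cons] at hu
    rw [it_succ, hs', app_cons, ← h] at hu'
    obtain ⟨c, v, hv⟩ := List.exists_cons_of_ne_nil (hne (g k))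
    rw [hv] at hu hu'
    rw [← (List.cons.inj hu).1, ← (List.cons.inj hu').1]
  have hsteps : ∀ k k' m, g k = g k' → g (k + m) = g (k' + m) := by
    intro k k' m h
    induction m with
    | zero => exact h
    | succ m ih => exact hstep _ _ ih
  have hgf : ∀ i : Fin n, g i = f i := by
    intro i
    obtain ⟨s, hs⟩ := hf' i
    obtain ⟨s', hs'⟩ := hg i
    rw [hs] at hs'
    exact (List.cons.inj hs').1.symm
  obtain ⟨j0, hj0⟩ := hf.2 (g n)
  have hper : ∀ k, j0.1 ≤ k → g (k + (n - j0.1)) = g k := by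
    intro k hk
    have h1 := hsteps n j0 (k - j0) (by rw [hgf, hj0])
    have hj := j0.2
    rw [show n + (k - j0.1) = k + (n - j0.1) by omega, show j0.1 + (k - j0.1) = k by omega] at h1
    exact h1
  have hperm : ∀ k m, j0.1 ≤ k → g (k + m * (n - j0.1)) = g k := by
    intro k m hk
    induction m with
    | zero => rw [Nat.zero_mul, Nat.add_zero]
    | succ m ih =>
      rw [Nat.succ_mul, ← Nat.add_assoc, hper _ (by omega), ih]
  have hhead : ∀ k, (it H k b0).head? = some (g k) := by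
    intro k
    obtain ⟨s, hs⟩ := hg k
    rw [hs]
    rfl
  have hj := j0.2
  refine ⟨j0, n - j0, by omega, by omega, ?_⟩
  have hred : ∀ k, j0.1 ≤ k → ∃ r m, k = r + m * (n - j0.1) ∧ j0.1 ≤ r ∧ r < n := by
    intro k hk
    have h1 := Nat.mod_add_div (k - j0) (n - j0.1)
    have h2 := Nat.mod_lt (k - j0) (show 0 < n - j0.1 by omega)
    refine ⟨j0 + (k - j0) % (n - j0.1), (k - j0) / (n - j0.1), ?_, by omega, by omega⟩
    rw [Nat.mul_comm]
    omega
  intro k k' hk hk'
  rw [hhead, hhead, Option.some_inj]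
  constructor
  · intro h
    obtain ⟨r, m, e1, h1, h2⟩ := hred k hk
    obtain ⟨r', m', e2, h3, h4⟩ := hred k' hk'
    rw [e1, e2, hperm r m h1, hperm r' m' h3] at h
    have h5 : f ⟨r, h2⟩ = f ⟨r', h4⟩ := by rw [← hgf, ← hgf]; exact h
    have h6 : r = r' := congrArg Fin.val (hf.1 h5)
    subst h6
    rw [e1, e2]
    push_cast
    exact ⟨m - m', by ring⟩
  · rintro ⟨z, hz⟩
    rcases le_total 0 z with h0 | h0
    · have h1 : k = k' + z.toNat * (n - j0.1) := by
        have h2 : (z.toNat : ℤ) = z := Int.toNat_of_nonneg h0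
        have h3 : ((k' + z.toNat * (n - j0.1) : ℕ) : ℤ) = k := by
          push_cast
          rw [h2]
          linarith
        exact_mod_cast h3.symm
      rw [h1]
      exact hperm k' _ hk'
    · have h1 : k' = k + (-z).toNat * (n - j0.1) := by
        have h2 : ((-z).toNat : ℤ) = -z := Int.toNat_of_nonneg (by omega)
        have h3 : ((k + (-z).toNat * (n - j0.1) : ℕ) : ℤ) = k' := by
          push_cast
          rw [h2]
          linarith
        exact_mod_cast h3.symm
      rw [h1]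
      exact (hperm k _ hk).symm

end D0L
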