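import Pool.Agent.H.MP_374efc_lc.Cr.Tok

/-!
# MP_374efc_lc: the stack argument

`w e = w 0 * pr a` is a formula whose positions are tight except the last one.  Two token words with the same product
are equal in every monoid with a token family which satisfies the formula.
-/

set_option autoImplicit false

namespace D0L

namespace Tk

variable {C : Type} [CancelMonoid C]

/-- The rest of the token `c + r e` after the token `c`. -/
def rho (e : ℕ) (a : List ℤ) (c : ℤ) : ℕ → List ℤ
  | 0 => []
  | r + 1 => a.map (c + ·) ++ rho e a (c + e) r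

/-- The formula `w e = w 0 * pr a` with tight positions. -/
structure Fm (S : Tk C) (e : ℕ) (a : List ℤ) : Prop where
  rel : S.w e = S.w 0 * S.pr a
  ne : a ≠ []
  tight : ∀ a1 i a2, a = a1 ++ i :: a2 → a2 ≠ [] →
    ∀ X, S.w (i + e) ∣ X → S.w i * S.pr a2 ∣ X → False
  two : ∀ i a2, a = i :: a2 → a2 ≠ [] ∨ ¬ (e : ℤ) ∣ i

variable {S : Tk C} {e : ℕ} {a : List ℤ}

theorem Fm.rel_k (hF : S.Fm e a) (k : ℤ) : S.w (k + e) = S.w k * S.pr (a.map (k + ·)) := by
  have h1 := congrArg (S.s k) hF.rel
  rwa [S.s_w, map_mul, S.s_w, add_zero, S.s_pr] at h1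

theorem Fm.rel_rho (hF : S.Fm e a) (c : ℤ) (r : ℕ) :
    S.w (c + r * e) = S.w c * S.pr (rho e a c r) := by
  induction r generalizing c with
  | zero => simp [rho, pr_nil]
  | succ r ih =>
    have h1 : c + ((r + 1 : ℕ) : ℤ) * e = c + e + r * e := by
      push_cast
      ring
    rw [h1, ih (c + e), hF.rel_k, rho, S.pr_append, mul_assoc]

theorem Fm.val_rho {M : Type} [Monoid M] {v : ℤ → M}
    (hv : ∀ k, v (k + e) = v k * ((a.map (k + ·)).map v).prod) (c : ℤ) (r : ℕ) :
    v (c + r * e) = v c * ((rho e a c r).map v).prod := by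
  induction r generalizing c with
  | zero => simp [rho]
  | succ r ih =>
    have h1 : c + ((r + 1 : ℕ) : ℤ) * e = c + e + r * e := by
      push_cast
      ring
    rw [h1, ih (c + e), hv, rho, List.map_append, List.prod_append, mul_assoc]

theorem Fm.lt (hF : S.Fm e a) {i : ℤ} (hi : i ∈ a) : i < e := by
  have h1 : S.w i ∣ S.w i * 1 := Dvd.intro _ rfl
  have hlen : S.len (S.w i) < S.len (S.w e) := by
    rw [hF.rel, S.len_mul]
    have h2 : S.len (S.w i) ≤ S.len (S.pr a) := by
      clear h1 hF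
      induction a with
      | nil => simp at hi
      | cons j a ih =>
        rw [pr_cons, S.len_mul]
        rcases List.mem_cons.1 hi with h | h
        · rw [h]
          have := S.len_nonneg (S.pr a)
          linarith
        · have := ih h
          have := S.len_nonneg (S.w j)
          linarith
    have h3 : 0 < S.len (S.w 0) := by
      rw [S.len_w, zpow_zero, one_mul]
      exact S.len_w0
    linarith
  rw [S.len_w, S.len_w] at hlen
  have h4 := lt_of_mul_lt_mul_right hlen S.len_w0.le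
  exact (zpow_lt_zpow_iff_right₀ S.one_lt).1 h4

/-- Segments: the ends of the rests. -/
def Sg (e : ℕ) (a : List ℤ) (σ : List ℤ) : Prop := ∃ c r, σ <:+ rho e a c r

theorem Sg.tail {x : ℤ} {σ : List ℤ} (h : Sg e a (x :: σ)) : Sg e a σ := by
  obtain ⟨c, r, h⟩ := h
  exact ⟨c, r, (List.suffix_cons x σ).trans h⟩

theorem Sg.rho (e : ℕ) (a : List ℤ) (c : ℤ) (r : ℕ) : Sg e a (rho e a c r) := ⟨c, r, List.suffix_rfl⟩

theorem Sg.single (ha : a ≠ []) (c : ℤ) : Sg e a [c] := by
  rcases List.eq_nil_or_concat a with h | ⟨a', l, h⟩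
  · exact absurd h ha
  · refine ⟨c - l, 1, ?_⟩
    rw [Tk.rho, Tk.rho, List.append_nil, h, List.concat_eq_append, List.map_append]
    refine ⟨a'.map (c - l + ·), ?_⟩
    simp

theorem Sg.cases {x : ℤ} {σ : List ℤ} (h : Sg e a (x :: σ)) : ∃ (m : ℤ) (r : ℕ) (a1 : List ℤ) (i : ℤ)
    (a2 : List ℤ), a = a1 ++ i :: a2 ∧ x = m + i ∧ σ = a2.map (m + ·) ++ Tk.rho e a (m + e) r := by
  obtain ⟨c, r, h⟩ := h
  induction r generalizing c with
  | zero =>
    rw [Tk.rho] at h
    exact absurd (List.suffix_nil.1 h) (by simp)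
  | succ r ih =>
    rw [Tk.rho] at h
    obtain ⟨p, hp⟩ := h
    rcases List.append_eq_append_iff.1 hp with ⟨q, h1, h2⟩ | ⟨q, h1, h2⟩
    · -- the segment begins in this block or is the next one
      cases q with
      | nil =>
        rw [List.nil_append] at h2
        exact ih (c + e) ⟨[], by rw [List.nil_append, h2]⟩
      | cons y q =>
        rw [List.cons_append] at h2
        obtain ⟨h3, h4⟩ := List.cons.inj h2
        rw [List.map_eq_append_iff] at h1
        obtain ⟨a1, a', h5, h6, h7⟩ := h1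
        rw [List.map_eq_cons_iff] at h7
        obtain ⟨i, a2, h8, h9, h10⟩ := h7
        exact ⟨c, r, a1, i, a2, by rw [h5, h8], by rw [h3, h9], by rw [h4, h10]⟩
    · exact ih (c + e) ⟨q, h2.symm⟩

/-- The heads of two words with the same product are in the same class. -/
theorem head_class (hD : S.D e) {x y : ℤ} {U V : List ℤ} (h : S.pr (x :: U) = S.pr (y :: V)) :
    (e : ℤ) ∣ y - x := by
  have h1 : S.w x ∣ S.pr (x :: U) := by
    rw [pr_cons]
    exact Dvd.intro _ rfl
  have h2 : S.w y ∣ S.pr (x :: U) := by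
    rw [h, pr_cons]
    exact Dvd.intro _ rfl
  have hne : ∀ k, S.w k ≠ 1 := by
    intro k hk
    have h3 := S.len_w k
    rw [hk, S.len_one] at h3
    have := mul_pos (zpow_pos S.lam_pos k) S.len_w0
    linarith
  rcases S.total _ _ _ h1 h2 with h3 | h3
  · exact hD y x (S.w x) (hne x) h3 dvd_rfl
  · exact hD y x (S.w y) (hne y) dvd_rfl h3

theorem head_add (hD : S.D e) (he : 0 < e) {x y : ℤ} {U V : List ℤ}
    (h : S.pr (x :: U) = S.pr (y :: V)) (hxy : x < y) : ∃ r : ℕ, y = x + (r + 1 : ℕ) * e := by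
  obtain ⟨z, hz⟩ := head_class hD h
  have h1 : 0 < z := by
    by_contra hcon
    push Not at hcon
    have : (e : ℤ) * z ≤ 0 := mul_nonpos_of_nonneg_of_nonpos (by omega) hcon
    omega
  refine ⟨(z - 1).toNat, ?_⟩
  have h2 : ((z - 1).toNat : ℤ) = z - 1 := Int.toNat_of_nonneg (by omega)
  push_cast
  rw [h2, sub_add_cancel]
  linarith

/-- **Tight heads.** -/
theorem Fm.tight_head (hF : S.Fm e a) (hP : S.P e) (hD : S.D e) (he : 0 < e) {m i : ℤ}
    {a1 a2 : List ℤ} (ha : a = a1 ++ i :: a2) (h2 : a2 ≠ []) {x : ℤ} {U V : List ℤ}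
    (h : S.pr ((m + i) :: (a2.map (m + ·) ++ V)) = S.pr (x :: U)) : ¬ m + i < x := by
  intro hlt
  obtain ⟨r, hr⟩ := head_add hD he h hlt
  obtain ⟨X, hX⟩ : ∃ X, X = S.pr (x :: U) := ⟨_, rfl⟩
  have h3 : S.w (m + i + e) ∣ X := by
    have h4 := hP.mul (m + i + e) r
    have h5 : m + i + e + r * e = x := by
      rw [hr]
      push_cast
      ring
    rw [h5] at h4
    refine h4.trans ?_
    rw [hX, pr_cons]
    exact Dvd.intro _ rfl
  have h4 : S.s m (S.w i * S.pr a2) ∣ X := by
    rw [hX, ← h, map_mul, S.s_w, S.s_pr, pr_cons, pr_append, ← mul_assoc]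
    exact Dvd.intro _ rfl
  refine hF.tight a1 i a2 ha h2 (S.s (-m) X) ?_ ?_
  · have h5 := (S.s_dvd (k := -m)).2 h3
    rwa [S.s_w, show -m + (m + i + e) = i + e by ring] at h5
  · have h5 := (S.s_dvd (k := -m)).2 h4
    rwa [S.s_neg] at h5

/-- **The smaller head is the last letter of its segment.** -/
theorem Fm.ending (hF : S.Fm e a) (hP : S.P e) (hD : S.D e) (he : 0 < e) {x y : ℤ}
    {σ U V : List ℤ} (hσ : Sg e a (x :: σ)) (h : S.pr (x :: (σ ++ U)) = S.pr (y :: V))
    (hlt : x < y) : σ = [] := by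
  obtain ⟨m, r, a1, i, a2, h1, h2, h3⟩ := hσ.cases
  have h4 : a2 = [] := by
    by_contra hcon
    rw [h2, h3, List.append_assoc] at h
    exact hF.tight_head hP hD he h1 hcon h (h2 ▸ hlt)
  rw [h4, List.map_nil, List.nil_append] at h3
  cases r with
  | zero => exact h3
  | succ r =>
    exfalso
    obtain ⟨q, hq⟩ := head_add hD he h hlt
    obtain ⟨i1, a3, hi1⟩ := List.exists_cons_of_ne_nil hF.ne
    have hie : i < e := hF.lt (by rw [h1]; simp)
    have h5 : S.pr (σ ++ U) = S.pr (rho e a x (q + 1) ++ V) := by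
      rw [pr_cons, pr_cons, hq, hF.rel_rho, mul_assoc] at h
      rw [S.pr_append _ V]
      exact mul_left_cancel h
    have h6 : σ ++ U = (m + e + i1) :: (a3.map (m + e + ·) ++ (rho e a (m + e + e) r ++ U)) := by
      rw [h3, rho, hi1]
      simp
    have h7 : rho e a x (q + 1) ++ V =
        (x + i1) :: (a3.map (x + ·) ++ (rho e a (x + e) q ++ V)) := by
      rw [rho, hi1]
      simp
    rw [h6, h7] at h5
    rcases hF.two i1 a3 hi1 with h8 | h8
    · have h9 := hF.tight_head (m := x) hP hD he (a1 := []) (by rw [hi1]; rfl) h8 h5.symm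
      rw [h2] at h9
      omega
    · have h9 := head_class hD h5
      obtain ⟨z, hz⟩ := h9
      -- `a = [i1]`
      by_cases h10 : a3 = []
      · have h11 : i = i1 := by
          rw [h10] at hi1
          rw [hi1] at h1
          cases a1 with
          | nil => simpa using (List.cons.inj h1).1.symm
          | cons b a1 => simp at h1
        refine h8 ⟨z + 1, ?_⟩
        rw [h2, h11] at hz
        linarith
      · have h9 := hF.tight_head (m := x) hP hD he (a1 := []) (by rw [hi1]; rfl) h10 h5.symm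
        rw [h2] at h9
        omega

end Tk

end D0L
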