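import Pool.Agent.H.MP_374efc_lc.Cr.St1

/-!
# MP_374efc_lc: the stack argument, termination

`Fm.eq_of_pr`: two token words with the same product have the same value in every monoid with a family of elements
which satisfies the formula.
-/

set_option autoImplicit false

namespace D0L

namespace Tk

/-- The lengths of the segments, outermost first. -/
def mu (K : ℕ) (A : List ℕ) : Fin K → ℕ := fun j => A.getD j 0

/-- The lexicographic order. -/
def lexK (K : ℕ) : (Fin K → ℕ) → (Fin K → ℕ) → Prop :=
  Pi.Lex (ι := Fin K) (β := fun _ => ℕ) (· < ·) (fun {_} => (· < ·))

theorem lexK_wf (K : ℕ) : WellFounded (lexK K) :=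
  Pi.Lex.wellFounded (ι := Fin K) (α := fun _ => ℕ) (· < ·) (fun _ => wellFounded_lt)

theorem mu_lt {K : ℕ} {A B : List ℕ} {l1 l2 : ℕ} (hK : A.length < K) (hl : l1 < l2) :
    lexK K (mu K (A ++ l1 :: B)) (mu K (A ++ [l2])) := by
  refine ⟨⟨A.length, hK⟩, ?_, ?_⟩
  · intro j hj
    have hj' : j.1 < A.length := hj
    simp only [mu, List.getD_eq_getElem?_getD]
    rw [List.getElem?_append_left hj', List.getElem?_append_left hj']
  · simp only [mu, List.getD_eq_getElem?_getD]
    rw [List.getElem?_append_right le_rfl, List.getElem?_append_right le_rfl]
    simpa using hl

theorem mu_zero {K : ℕ} (A : List ℕ) : mu K (A ++ [0]) = mu K A := by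
  funext j
  simp only [mu, List.getD_eq_getElem?_getD]
  rcases lt_trichotomy j.1 A.length with h | h | h
  · rw [List.getElem?_append_left h]
  · rw [List.getElem?_append_right h.ge, h, Nat.sub_self, List.getElem?_eq_none (le_refl _)]
    simp
  · rw [List.getElem?_eq_none (by simp; omega), List.getElem?_eq_none (by omega)]

/-- The vector of a stack (innermost segment first). -/
def vec (us : List (List ℤ)) : List ℕ := us.reverse.map List.length

theorem vec_cons (σ : List ℤ) (us : List (List ℤ)) : vec (σ :: us) = vec us ++ [σ.length] := by
  simp [vec]

theorem vec_length (us : List (List ℤ)) : (vec us).length = us.length := by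
  simp [vec]

variable {C : Type} [CancelMonoid C] {S : Tk C} {e : ℕ} {a : List ℤ}

theorem pr_eq_one {U : List ℤ} (h : S.pr U = 1) : U = [] := by
  cases U with
  | nil => rfl
  | cons k U =>
    exfalso
    have h1 := congrArg S.len h
    rw [pr_cons, S.len_mul, S.len_w, S.len_one] at h1
    have h2 := S.len_nonneg (S.pr U)
    have h3 := mul_pos (zpow_pos S.lam_pos k) S.len_w0
    linarith

/-- **The stack argument.** -/
theorem Fm.run (hF : S.Fm e a) (hP : S.P e) (hD : S.D e) (he : 0 < e) {M : Type} [Monoid M]
    {v : ℤ → M} (hv : ∀ k, v (k + e) = v k * ((a.map (k + ·)).map v).prod) (K : ℕ) :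
    ∀ us vs : List (List ℤ), us.length + vs.length ≤ K → (∀ σ ∈ us, Sg e a σ) →
      (∀ σ ∈ vs, Sg e a σ) → S.pr us.flatten = S.pr vs.flatten →
      (us.flatten.map v).prod = (vs.flatten.map v).prod := by
  obtain ⟨R, hR⟩ : ∃ R, R = Prod.Lex (lexK K) (fun x y : ℕ => x < y) := ⟨_, rfl⟩
  have hwf : WellFounded R := by
    rw [hR]
    exact WellFounded.prod_lex (lexK_wf K) wellFounded_lt
  suffices hmain : ∀ p : (Fin K → ℕ) × ℕ, ∀ us vs : List (List ℤ),
      p = (mu K (vec us), us.length + vs.length) → us.length + vs.length ≤ K →
      (∀ σ ∈ us, Sg e a σ) → (∀ σ ∈ vs, Sg e a σ) → S.pr us.flatten = S.pr vs.flatten →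
      (us.flatten.map v).prod = (vs.flatten.map v).prod from
    fun us vs => hmain _ us vs rfl
  intro p
  induction p using hwf.induction with
  | _ p ih =>
    intro us vs hp hK hus hvs heq
    have hrec1 : ∀ us' vs' : List (List ℤ), lexK K (mu K (vec us')) (mu K (vec us)) →
        us'.length + vs'.length ≤ K → (∀ σ ∈ us', Sg e a σ) → (∀ σ ∈ vs', Sg e a σ) →
        S.pr us'.flatten = S.pr vs'.flatten →
        (us'.flatten.map v).prod = (vs'.flatten.map v).prod := by
      intro us' vs' h1 h2 h3 h4 h5
      refine ih _ ?_ us' vs' rfl h2 h3 h4 h5
      rw [hR, hp]
      exact Prod.Lex.left _ _ h1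
    have hrec2 : ∀ us' vs' : List (List ℤ), mu K (vec us') = mu K (vec us) →
        us'.length + vs'.length < us.length + vs.length → (∀ σ ∈ us', Sg e a σ) →
        (∀ σ ∈ vs', Sg e a σ) → S.pr us'.flatten = S.pr vs'.flatten →
        (us'.flatten.map v).prod = (vs'.flatten.map v).prod := by
      intro us' vs' h1 h2 h3 h4 h5
      refine ih _ ?_ us' vs' rfl (by omega) h3 h4 h5
      rw [hR, hp, h1]
      exact Prod.Lex.right _ h2
    cases us with
    | nil =>
      have h1 : vs.flatten = [] := pr_eq_one (S := S) (by rw [← heq]; rfl)
      rw [h1]
      rfl
    | cons σ us =>
      cases σ with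
      | nil =>
        have h1 := hrec2 us vs (by rw [vec_cons]; exact (mu_zero _).symm)
          (by simp) (fun τ hτ => hus τ (List.mem_cons_of_mem _ hτ)) hvs (by simpa using heq)
        simpa using h1
      | cons x σ =>
        cases vs with
        | nil =>
          exfalso
          have h1 : ((x :: σ) :: us).flatten = [] := pr_eq_one (S := S) (by rw [heq]; rfl)
          simp at h1
        | cons τ vs =>
          cases τ with
          | nil =>
            have h1 := hrec2 ((x :: σ) :: us) vs rfl (by simp)
              hus (fun τ hτ => hvs τ (List.mem_cons_of_mem _ hτ)) (by simpa using heq)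
            simpa using h1
          | cons y τ =>
            have hσ : Sg e a (x :: σ) := hus _ List.mem_cons_self
            have hτ : Sg e a (y :: τ) := hvs _ List.mem_cons_self
            have hus' : ∀ ρ ∈ us, Sg e a ρ := fun ρ h => hus ρ (List.mem_cons_of_mem _ h)
            have hvs' : ∀ ρ ∈ vs, Sg e a ρ := fun ρ h => hvs ρ (List.mem_cons_of_mem _ h)
            have hfl1 : ((x :: σ) :: us).flatten = x :: (σ ++ us.flatten) := by simp
            have hfl2 : ((y :: τ) :: vs).flatten = y :: (τ ++ vs.flatten) := by simp
            rw [hfl1, hfl2] at heq ⊢
            have hlen : us.length + vs.length + 2 ≤ K := by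
              simp only [List.length_cons] at hK
              omega
            rcases lt_trichotomy x y with hxy | hxy | hxy
            · -- the head `x` ends its segment
              have h1 := hF.ending hP hD he hσ heq hxy
              subst h1
              rw [List.nil_append] at heq ⊢
              obtain ⟨q, hq⟩ := head_add hD he heq hxy
              have h2 : S.pr us.flatten = S.pr (rho e a x (q + 1) :: τ :: vs).flatten := by
                rw [pr_cons, pr_cons, hq, hF.rel_rho, mul_assoc] at heq
                have h3 := mul_left_cancel heq
                rw [h3]
                simp only [List.flatten_cons, S.pr_append]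
              have h3 := hrec1 us (rho e a x (q + 1) :: τ :: vs)
                (by
                  rw [vec_cons, ← mu_zero (vec us)]
                  exact mu_lt (by rw [vec_length]; omega) (by simp))
                (by simp only [List.length_cons]; omega) hus'
                (by
                  intro ρ hρ
                  rcases List.mem_cons.1 hρ with h | h
                  · rw [h]
                    exact Sg.rho e a x (q + 1)
                  · rcases List.mem_cons.1 h with h | h
                    · rw [h]
                      exact hτ.tail
                    · exact hvs' ρ h) h2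
              rw [List.map_cons, List.prod_cons, h3, List.map_cons, List.prod_cons, hq,
                Fm.val_rho hv]
              simp only [List.flatten_cons, List.map_append, List.prod_append, mul_assoc]
            · subst hxy
              rw [pr_cons, pr_cons] at heq
              have h1 := mul_left_cancel heq
              have h2 : S.pr (σ :: us).flatten = S.pr (τ :: vs).flatten := by
                simpa only [List.flatten_cons] using h1
              have h3 := hrec1 (σ :: us) (τ :: vs)
                (by
                  rw [vec_cons, vec_cons]
                  exact mu_lt (by rw [vec_length]; omega) (by simp))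
                (by simp only [List.length_cons]; omega)
                (by
                  intro ρ hρ
                  rcases List.mem_cons.1 hρ with h | h
                  · rw [h]
                    exact hσ.tail
                  · exact hus' ρ h)
                (by
                  intro ρ hρ
                  rcases List.mem_cons.1 hρ with h | h
                  · rw [h]
                    exact hτ.tail
                  · exact hvs' ρ h) h2
              simp only [List.flatten_cons] at h3
              rw [List.map_cons, List.prod_cons, List.map_cons, List.prod_cons, h3]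
            · have h1 := hF.ending hP hD he hτ heq.symm hxy
              subst h1
              rw [List.nil_append] at heq ⊢
              obtain ⟨q, hq⟩ := head_add hD he heq.symm hxy
              have h2 : S.pr (rho e a y (q + 1) :: σ :: us).flatten = S.pr vs.flatten := by
                rw [pr_cons, pr_cons, hq, hF.rel_rho, mul_assoc] at heq
                have h3 := mul_left_cancel heq
                rw [← h3]
                simp only [List.flatten_cons, S.pr_append]
              have h3 := hrec1 (rho e a y (q + 1) :: σ :: us) vs
                (by
                  rw [vec_cons, vec_cons, vec_cons, List.append_assoc]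
                  exact mu_lt (by rw [vec_length]; omega) (by simp))
                (by simp only [List.length_cons]; omega)
                (by
                  intro ρ hρ
                  rcases List.mem_cons.1 hρ with h | h
                  · rw [h]
                    exact Sg.rho e a y (q + 1)
                  · rcases List.mem_cons.1 h with h | h
                    · rw [h]
                      exact hσ.tail
                    · exact hus' ρ h) hvs' h2
              rw [List.map_cons, List.prod_cons, List.map_cons, List.prod_cons, ← h3, hq,
                Fm.val_rho hv]
              simp only [List.flatten_cons, List.map_append, List.prod_append, mul_assoc]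

/-- Two token words with the same product have the same value in every monoid with the formula. -/
theorem Fm.eq_of_pr (hF : S.Fm e a) (hP : S.P e) (hD : S.D e) (he : 0 < e) {M : Type} [Monoid M]
    {v : ℤ → M} (hv : ∀ k, v (k + e) = v k * ((a.map (k + ·)).map v).prod) {U V : List ℤ}
    (h : S.pr U = S.pr V) : (U.map v).prod = (V.map v).prod := by
  have hfl : ∀ W : List ℤ, (W.map fun k => [k]).flatten = W := by
    intro W
    induction W with
    | nil => rfl
    | cons k W ih =>
      rw [List.map_cons, List.flatten_cons, ih]
      rfl
  have hsg : ∀ W : List ℤ, ∀ σ ∈ W.map fun k => [k], Sg e a σ := by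
    intro W σ hσ
    obtain ⟨k, -, rfl⟩ := List.mem_map.1 hσ
    exact Sg.single hF.ne k
  have h1 := hF.run hP hD he hv _ (U.map fun k => [k]) (V.map fun k => [k]) le_rfl (hsg U) (hsg V)
    (by rw [hfl, hfl]; exact h)
  rwa [hfl, hfl] at h1

end Tk

end D0L
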