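import Pool.Agent.H.MP_374efc_lc.Cr.St2
import Pool.Agent.H.MP_374efc_lc.Cr.Col

/-!
# MP_374efc_lc: the formal monoid of a formula

The formula `w e = w 0 * pr a` with least index `-h` defines a morphism `fH` of the free monoid with letters
`0, ..., e + h - 1`; it is injective, so that the tokens `w 0, ..., w (e + h - 1)` are a code (`Fm.code`).
-/

set_option autoImplicit false

namespace D0L

/-- The word of the formula. -/
def fW (h : ℕ) (a : List ℤ) : List ℕ := (0 :: a).map fun j : ℤ => (j + h).toNat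

/-- The morphism of the formula. -/
def fH (e h : ℕ) (a : List ℤ) (i : ℕ) : List ℕ := if i + 1 = e + h then fW h a else [i + 1]

theorem fH_last (e h : ℕ) (a : List ℤ) {i : ℕ} (hi : i + 1 = e + h) : fH e h a i = fW h a := by
  rw [fH, if_pos hi]

theorem fH_else (e h : ℕ) (a : List ℤ) {i : ℕ} (hi : i + 1 ≠ e + h) : fH e h a i = [i + 1] := by
  rw [fH, if_neg hi]

/-- The part before the first `0`. -/
def bz (x : List ℕ) : ℕ := (x.takeWhile (· != 0)).length

theorem bz_app {x : List ℕ} (hx : 0 ∈ x) (y : List ℕ) : bz (x ++ y) = bz x := by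
  induction x with
  | nil => simp at hx
  | cons b x ih =>
    by_cases hb : b = 0
    · subst hb
      simp [bz]
    · have h1 : 0 ∈ x := by
        rcases List.mem_cons.1 hx with h | h
        · exact absurd h.symm hb
        · exact h
      have h2 := ih h1
      simp only [bz] at h2 ⊢
      rw [List.cons_append, List.takeWhile_cons_of_pos (by simpa using hb),
        List.takeWhile_cons_of_pos (by simpa using hb), List.length_cons, List.length_cons, h2]

theorem bz_cons {b : ℕ} (hb : b ≠ 0) (x : List ℕ) : bz (b :: x) = bz x + 1 := by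
  rw [bz, List.takeWhile_cons_of_pos (by simpa using hb)]
  rfl

section

variable {e h : ℕ} {a : List ℤ}

theorem zero_mem_fW (hmin : (-(h : ℤ)) ∈ (0 :: a : List ℤ)) : 0 ∈ fW h a := by
  rw [fW, List.mem_map]
  exact ⟨-(h : ℤ), hmin, by simp⟩

theorem fH_mem (hmin : (-(h : ℤ)) ∈ (0 :: a : List ℤ)) (u : List ℕ) :
    (0 ∈ app (fH e h a) u → ∃ i ∈ u, i + 1 = e + h) ∧
    ((∃ i ∈ u, i + 1 = e + h) → bz (fW h a) ≤ bz (app (fH e h a) u) ∧
      0 ∈ app (fH e h a) u) := by
  induction u with
  | nil => simp [app_nil]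
  | cons i u ih =>
    rw [app_cons]
    by_cases hi : i + 1 = e + h
    · rw [fH_last e h a hi]
      refine ⟨fun _ => ⟨i, List.mem_cons_self, hi⟩, fun _ => ⟨?_, ?_⟩⟩
      · rw [bz_app (zero_mem_fW hmin)]
      · exact List.mem_append_left _ (zero_mem_fW hmin)
    · rw [fH_else e h a hi]
      refine ⟨fun h1 => ?_, fun h1 => ?_⟩
      · have h2 : 0 ∈ app (fH e h a) u := by simpa using h1
        obtain ⟨j, hj, hj'⟩ := ih.1 h2
        exact ⟨j, List.mem_cons_of_mem _ hj, hj'⟩
      · obtain ⟨j, hj, hj'⟩ := h1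
        rcases List.mem_cons.1 hj with h2 | h2
        · rw [h2] at hj'
          exact absurd hj' hi
        · obtain ⟨h3, h4⟩ := ih.2 ⟨j, h2, hj'⟩
          rw [List.singleton_append, bz_cons (by omega)]
          exact ⟨by omega, List.mem_cons_of_mem _ h4⟩

theorem fH_inj (hmin : (-(h : ℤ)) ∈ (0 :: a : List ℤ)) :
    Function.Injective (app (fH e h a)) := by
  have hW := zero_mem_fW hmin
  have hWne : fW h a ≠ [] := by simp [fW]
  have key : ∀ i j : ℕ, ∀ u v : List ℕ, i + 1 ≠ e + h → j + 1 = e + h →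
      app (fH e h a) (i :: u) ≠ app (fH e h a) (j :: v) := by
    intro i j u v hi hj heq
    have h1 : 0 ∈ app (fH e h a) (j :: v) := by
      rw [app_cons, fH_last e h a hj]
      exact List.mem_append_left _ hW
    have h2 : bz (app (fH e h a) (j :: v)) = bz (fW h a) := by
      rw [app_cons, fH_last e h a hj, bz_app hW]
    rw [← heq] at h1 h2
    obtain ⟨q, hq, hq'⟩ := (fH_mem hmin (i :: u)).1 h1
    rcases List.mem_cons.1 hq with h3 | h3
    · rw [h3] at hq'
      exact hi hq'
    · have h4 := ((fH_mem (e := e) hmin u).2 ⟨q, h3, hq'⟩).1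
      rw [app_cons, fH_else e h a hi, List.singleton_append, bz_cons (by omega)] at h2
      omega
  intro u
  induction u with
  | nil =>
    intro v hv
    cases v with
    | nil => rfl
    | cons j v =>
      exfalso
      rw [app_nil, app_cons] at hv
      have h1 := (List.append_eq_nil_iff.1 hv.symm).1
      by_cases hj : j + 1 = e + h
      · rw [fH_last e h a hj] at h1
        exact hWne h1
      · rw [fH_else e h a hj] at h1
        simp at h1
  | cons i u ih =>
    intro v hv
    cases v with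
    | nil =>
      exfalso
      rw [app_nil, app_cons] at hv
      have h1 := (List.append_eq_nil_iff.1 hv).1
      by_cases hj : i + 1 = e + h
      · rw [fH_last e h a hj] at h1
        exact hWne h1
      · rw [fH_else e h a hj] at h1
        simp at h1
    | cons j v =>
      by_cases hi : i + 1 = e + h
      · by_cases hj : j + 1 = e + h
        · rw [app_cons, app_cons, fH_last e h a hi, fH_last e h a hj] at hv
          rw [ih (List.append_cancel_left hv), show i = j by omega]
        · exact absurd hv.symm (key j i v u hj hi)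
      · by_cases hj : j + 1 = e + h
        · exact absurd hv (key i j u v hi hj)
        · rw [app_cons, app_cons, fH_else e h a hi, fH_else e h a hj] at hv
          obtain ⟨h1, h2⟩ := List.cons.inj hv
          rw [ih h2, show i = j by omega]

theorem it_fH_lt {k : ℕ} (hk : k < e + h) : it (fH e h a) k [0] = [k] := by
  induction k with
  | zero => rfl
  | succ k ih =>
    rw [it_succ, ih (by omega), app_singleton, fH_else e h a (by omega)]

theorem it_fH_N (he : 0 < e) : it (fH e h a) (e + h) [0] = fW h a := by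
  obtain ⟨q, hq⟩ : ∃ q, e + h = q + 1 := ⟨e + h - 1, by omega⟩
  rw [hq, it_succ, it_fH_lt (by omega), app_singleton, fH_last e h a (by omega)]

theorem it_fH_add {m k : ℕ} (hk : k < e + h) : it (fH e h a) m [k] = it (fH e h a) (m + k) [0] := by
  rw [it_add, it_fH_lt hk]

/-- The tokens of the formal monoid. -/
noncomputable def fv (e h : ℕ) (a : List ℤ) [HInj (fH e h a)] (k : ℤ) : Col (fH e h a) :=
  Col.sft k (Col.mk (fH e h a) 0 [0])

variable [HInj (fH e h a)]

theorem fv_eq {k : ℤ} {L : ℕ} (hk : 0 ≤ L + k) :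
    fv e h a k = Col.mk (fH e h a) L (it (fH e h a) (L + k).toNat [0]) := by
  have h1 : k = ((L + k).toNat : ℤ) + -(L : ℤ) := by
    rw [Int.toNat_of_nonneg hk]
    ring
  conv_lhs => rw [fv, h1]
  rw [Col.sft_add, Col.sft_neg_mk, Nat.zero_add, Col.sft_nat_mk]

theorem fv_rel (he : 0 < e) (hb : ∀ j ∈ (0 :: a : List ℤ), -(h : ℤ) ≤ j ∧ j < e) (k : ℤ) :
    fv e h a (k + e) = fv e h a k * ((a.map (k + ·)).map (fv e h a)).prod := by
  obtain ⟨L, hL⟩ : ∃ L : ℕ, (h : ℤ) ≤ L + k := ⟨h + k.natAbs, by omega⟩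
  obtain ⟨m, hm⟩ : ∃ m : ℕ, m = (L + k - h).toNat := ⟨_, rfl⟩
  have hm' : (m : ℤ) = L + k - h := by rw [hm, Int.toNat_of_nonneg (by omega)]
  have h1 : fv e h a (k + e) = Col.mk (fH e h a) L (it (fH e h a) m (fW h a)) := by
    rw [fv_eq (L := L) (by omega), ← it_fH_N he, ← it_add]
    congr 2
    omega
  have h2 : ∀ b : List ℤ, (∀ j ∈ b, -(h : ℤ) ≤ j ∧ j < e) →
      ((b.map (k + ·)).map (fv e h a)).prod =
        Col.mk (fH e h a) L (it (fH e h a) m (b.map fun j : ℤ => (j + h).toNat)) := by
    intro b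
    induction b with
    | nil =>
      intro _
      rw [List.map_nil, List.map_nil, List.map_nil, List.prod_nil, it_nil, Col.mk_nil]
    | cons j b ih =>
      intro hb'
      obtain ⟨h3, h4⟩ := hb' j List.mem_cons_self
      rw [List.map_cons, List.map_cons, List.prod_cons,
        ih (fun q hq => hb' q (List.mem_cons_of_mem _ hq)), List.map_cons, Z1_it_cons,
        ← Col.mk_mul_mk, fv_eq (L := L) (by omega),
        it_fH_add (m := m) (k := (j + h).toNat) (by omega)]
      have h5 : ((L : ℤ) + (k + j)).toNat = m + (j + h).toNat := by omega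
      rw [h5]
  have h3 := h2 (0 :: a) hb
  rw [List.map_cons, List.map_cons, List.prod_cons, add_zero] at h3
  rw [h1, h3]
  rfl

theorem fv_word (U : List ℕ) (hU : ∀ k ∈ U, k < e + h) :
    ((U.map fun k : ℕ => (k : ℤ)).map (fv e h a)).prod = Col.mk (fH e h a) 0 U := by
  induction U with
  | nil => rw [List.map_nil, List.map_nil, List.prod_nil, Col.mk_nil]
  | cons k U ih =>
    rw [List.map_cons, List.map_cons, List.prod_cons,
      ih (fun q hq => hU q (List.mem_cons_of_mem _ hq)), fv_eq (L := 0) (by simp)]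
    have h1 : ((0 : ℕ) + (k : ℤ)).toNat = k := by simp
    rw [h1, it_fH_lt (hU k List.mem_cons_self), Col.mk_mul_mk]
    rfl

end

/-- **The tokens of a formula with tight positions are a code.** -/
theorem Tk.Fm.code {C : Type} [CancelMonoid C] {S : Tk C} {e : ℕ} {a : List ℤ} (hF : S.Fm e a)
    (hP : S.P e) (hD : S.D e) (he : 0 < e) {h : ℕ} (hmin : (-(h : ℤ)) ∈ (0 :: a : List ℤ))
    (hb : ∀ j ∈ a, -(h : ℤ) ≤ j) {U V : List ℕ} (hU : ∀ k ∈ U, k < e + h)
    (hV : ∀ k ∈ V, k < e + h)
    (heq : S.pr (U.map fun k : ℕ => (k : ℤ)) = S.pr (V.map fun k : ℕ => (k : ℤ))) : U = V := by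
  have : HInj (fH e h a) := ⟨fH_inj hmin⟩
  have hb' : ∀ j ∈ (0 :: a : List ℤ), -(h : ℤ) ≤ j ∧ j < e := by
    intro j hj
    rcases List.mem_cons.1 hj with h1 | h1
    · subst h1
      exact ⟨by omega, by omega⟩
    · exact ⟨hb j h1, hF.lt h1⟩
  have h1 := hF.eq_of_pr hP hD he (fv_rel he hb') heq
  rw [fv_word U hU, fv_word V hV] at h1
  exact Col.mk_inj h1

end D0L
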