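import Pool.Agent.H.MP_374efc_lc.Cr.St3
import Pool.Agent.H.MP_374efc_lc.Cr.Gc

/-!
# MP_374efc_lc: normal forms whose greedy rest is a token

`nf_letters`: if the words `b_0, ..., b_(N'-1)` of a normal form are a code which generates all words `b_k`, then
`b_0, ..., b_(n-1)` are letters.  `ga_letters`: this is the case if the rest of the greedy cover of `w e` is a token
`w l`, unless the greedy path is empty and `e ∣ l`.
-/

set_option autoImplicit false

namespace D0L

open Bim

variable {n : ℕ} {H : Fin n → List (Fin n)} {b0 : List (Fin n)} {lam : ℝ} {l : Fin n → ℝ}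

/-- The word of a list of indices. -/
def fl (H : Fin n → List (Fin n)) (b0 : List (Fin n)) (U : List ℕ) : List (Fin n) :=
  (U.map fun k => it H k b0).flatten

theorem fl_append (U V : List ℕ) : fl H b0 (U ++ V) = fl H b0 U ++ fl H b0 V := by
  simp [fl]

theorem fl_cons (k : ℕ) (U : List ℕ) : fl H b0 (k :: U) = it H k b0 ++ fl H b0 U := by
  simp [fl]

/-- A relation generates all words. -/
theorem gen_of_rel {N' : ℕ} {W : List ℕ} (hW : ∀ j ∈ W, j < N') (hrel : it H N' b0 = fl H b0 W) :
    ∀ k, ∃ U : List ℕ, (∀ j ∈ U, j < N') ∧ it H k b0 = fl H b0 U := by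
  intro k
  induction k using Nat.strong_induction_on with
  | _ k ih =>
    by_cases hk : k < N'
    · refine ⟨[k], by simpa using hk, ?_⟩
      simp [fl]
    · obtain ⟨m, rfl⟩ : ∃ m, k = m + N' := ⟨k - N', by omega⟩
      rw [it_add, hrel]
      clear hrel
      have key : ∀ V : List ℕ, (∀ j ∈ V, j < N') →
          ∃ U : List ℕ, (∀ j ∈ U, j < N') ∧ it H m (fl H b0 V) = fl H b0 U := by
        intro V
        induction V with
        | nil => intro _; exact ⟨[], by simp, it_nil H m⟩
        | cons j V ihV =>
          intro hV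
          obtain ⟨U, hU1, hU2⟩ := ihV (fun q hq => hV q (List.mem_cons_of_mem _ hq))
          have hj := hV j List.mem_cons_self
          obtain ⟨U', hU'1, hU'2⟩ := ih (m + j) (by omega)
          refine ⟨U' ++ U, ?_, ?_⟩
          · intro q hq
            rcases List.mem_append.1 hq with h | h
            · exact hU'1 q h
            · exact hU1 q h
          · rw [fl_cons, it_append, hU2, ← it_add, hU'2, fl_append]
      exact key W hW

/-- **A code of words of a normal form consists of letters.** -/
theorem nf_letters {N N' : ℕ} (hnf : NF H b0 N)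
    (hcode : ∀ U V : List ℕ, (∀ j ∈ U, j < N') → (∀ j ∈ V, j < N') → fl H b0 U = fl H b0 V → U = V)
    (hgen : ∀ k, ∃ U : List ℕ, (∀ j ∈ U, j < N') ∧ it H k b0 = fl H b0 U) :
    ∀ i < n, (it H i b0).length = 1 := by
  have hne := fun a => ne_of_inj hnf.inj a
  have hitne : ∀ k, it H k b0 ≠ [] := by
    intro k h
    have h1 := length_le_it hne k b0
    rw [h, List.length_nil] at h1
    exact hnf.ne (List.length_eq_zero_iff.1 (Nat.le_zero.1 h1))
  have hflne : ∀ U : List ℕ, fl H b0 U = [] → U = [] := by
    intro U hU
    cases U with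
    | nil => rfl
    | cons k U =>
      rw [fl_cons] at hU
      exact absurd (List.append_eq_nil_iff.1 hU).1 (hitne k)
  -- every word is a product of tokens
  have hall : ∀ x : List (Fin n), ∃ U : List ℕ, (∀ j ∈ U, j < N') ∧ x = fl H b0 U := by
    refine hnf.hull _ ⟨[], by simp, rfl⟩ ?_ ?_ ?_
    · rintro x y ⟨U, hU, rfl⟩ ⟨V, hV, rfl⟩
      refine ⟨U ++ V, ?_, (fl_append U V).symm⟩
      intro j hj
      rcases List.mem_append.1 hj with h | h
      · exact hU j h
      · exact hV j h
    · rintro x y z ⟨U, hU, hx⟩ ⟨V, hV, hy⟩ ⟨C, hC, hxz⟩ ⟨D, hD, hzy⟩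
      have h1 : fl H b0 (C ++ V) = fl H b0 (U ++ D) := by
        rw [fl_append, fl_append, ← hxz, ← hy, ← hx, ← hzy, List.append_assoc]
      have h2 := hcode (C ++ V) (U ++ D)
        (by
          intro j hj
          rcases List.mem_append.1 hj with h | h
          · exact hC j h
          · exact hV j h)
        (by
          intro j hj
          rcases List.mem_append.1 hj with h | h
          · exact hU j h
          · exact hD j h) h1
      rcases List.append_eq_append_iff.1 h2 with ⟨W, h3, h4⟩ | ⟨W, h3, h4⟩
      · -- `U = C ++ W`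
        have h5 : fl H b0 U = fl H b0 C ++ fl H b0 W := by rw [h3, fl_append]
        rw [← hx, ← hxz] at h5
        have h6 : z ++ fl H b0 W = [] := by
          have h7 := congrArg List.length h5
          simp only [List.length_append] at h7
          exact List.length_eq_zero_iff.1 (by rw [List.length_append]; omega)
        exact ⟨[], by simp, (List.append_eq_nil_iff.1 h6).1⟩
      · -- `C = U ++ W`
        refine ⟨W, fun j hj => hC j (by rw [h3]; exact List.mem_append_right _ hj), ?_⟩
        rw [h3, fl_append, ← hx] at hxz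
        exact List.append_cancel_left hxz
    · intro i _
      exact hgen i
  -- letters are tokens
  have hlet : ∀ a : Fin n, ∃ k < N', it H k b0 = [a] := by
    intro a
    obtain ⟨U, hU, ha⟩ := hall [a]
    cases U with
    | nil => simp [fl] at ha
    | cons k U =>
      rw [fl_cons] at ha
      obtain ⟨c, s, hc⟩ := List.exists_cons_of_ne_nil (hitne k)
      rw [hc, List.cons_append] at ha
      obtain ⟨h1, h2⟩ := List.cons.inj ha
      have h3 := List.append_eq_nil_iff.1 h2.symm
      exact ⟨k, hU k List.mem_cons_self, by rw [hc, h3.1, h1]⟩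
  choose g hg1 hg2 using hlet
  -- tokens are letters
  have htok : ∀ k < N', (it H k b0).length = 1 := by
    intro k hk
    have h1 : ∀ x : List (Fin n), fl H b0 (x.map g) = x := by
      intro x
      induction x with
      | nil => rfl
      | cons a x ih => rw [List.map_cons, fl_cons, ih, hg2]; rfl
    have h2 := hcode ((it H k b0).map g) [k]
      (by
        intro j hj
        obtain ⟨a, -, rfl⟩ := List.mem_map.1 hj
        exact hg1 a) (by simpa using hk) (by rw [h1]; simp [fl])
    have h3 := congrArg List.length h2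
    simpa using h3
  have hginj : Function.Injective g := by
    intro a b hab
    have h1 := hg2 a
    rw [hab, hg2 b] at h1
    exact (List.cons.inj h1).1.symm
  have hnN : n ≤ N' := by
    have h1 := Fintype.card_le_of_injective (fun a : Fin n => (⟨g a, hg1 a⟩ : Fin N'))
      (fun a b hab => hginj (by simpa using hab))
    simpa using h1
  intro i hi
  exact htok i (by omega)

variable [HInj H] (hw : PW H b0 lam l)

theorem tkN_nat (k : ℕ) : (tkN hw).w (k : ℤ) = Col.mk H 0 (it H k b0) := by
  have := tkN_w hw 0 k
  simpa using this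

theorem pr_nat (U : List ℕ) :
    (tkN hw).pr (U.map fun k : ℕ => (k : ℤ)) = Col.mk H 0 (fl H b0 U) := by
  induction U with
  | nil => exact (Col.mk_nil 0).symm
  | cons k U ih => rw [List.map_cons, Tk.pr_cons, ih, tkN_nat, Col.mk_mul_mk, fl_cons]

/-- **A code formula gives letters.** -/
theorem letters_of_code {N : ℕ} (hnf : NF H b0 N) {e h : ℕ} {a : List ℤ}
    (hrel : (tkN hw).w e = (tkN hw).w 0 * (tkN hw).pr a)
    (hb : ∀ j ∈ (0 :: a : List ℤ), -(h : ℤ) ≤ j ∧ j < e)
    (hcode : ∀ U V : List ℕ, (∀ j ∈ U, j < e + h) → (∀ j ∈ V, j < e + h) →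
      (tkN hw).pr (U.map fun k : ℕ => (k : ℤ)) = (tkN hw).pr (V.map fun k : ℕ => (k : ℤ)) → U = V) :
    ∀ i < n, (it H i b0).length = 1 := by
  refine nf_letters (N' := e + h) hnf ?_ (gen_of_rel (W := fW h a) ?_ ?_)
  · intro U V hU hV heq
    refine hcode U V hU hV ?_
    rw [pr_nat, pr_nat, heq]
  · intro j hj
    rw [fW, List.mem_map] at hj
    obtain ⟨q, hq, rfl⟩ := hj
    have := hb q hq
    omega
  · have h1 := congrArg ((tkN hw).s (h : ℤ)) hrel
    rw [(tkN hw).s_w, map_mul, (tkN hw).s_w, add_zero, (tkN hw).s_pr] at h1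
    have h2 : (h : ℤ) + e = ((e + h : ℕ) : ℤ) := by push_cast; ring
    have h3 : (tkN hw).w h * (tkN hw).pr (a.map ((h : ℤ) + ·)) =
        (tkN hw).pr ((fW h a).map fun k : ℕ => (k : ℤ)) := by
      have h4 : (fW h a).map (fun k : ℕ => (k : ℤ)) = (0 :: a).map ((h : ℤ) + ·) := by
        rw [fW, List.map_map]
        apply List.map_congr_left
        intro j hj
        have := hb j hj
        simp only [Function.comp_apply]
        rw [Int.toNat_of_nonneg (by omega)]
        ring
      rw [h4, List.map_cons, Tk.pr_cons, add_zero]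
    rw [h2, tkN_nat, h3, pr_nat] at h1
    exact Col.mk_inj h1

/-- **Normal forms whose greedy rest is a token.** -/
theorem ga_letters {N : ℕ} (hnf : NF H b0 N) {j0 e : ℕ} (hc : Cls H b0 j0 e) {is : List ℤ} {q : ℤ}
    (hgr : (tkN hw).Grd e is)
    (hrel : (tkN hw).w e = (tkN hw).w 0 * (tkN hw).pr is * (tkN hw).w q)
    (hmin : ∀ js, (tkN hw).IsP e js → (tkN hw).Cvr e ((tkN hw).w e) js → is.length ≤ js.length)
    (htwo : is ≠ [] ∨ ¬ (e : ℤ) ∣ q) : ∀ i < n, (it H i b0).length = 1 := by
  have hD := cls_D hw (fun a => ne_of_inj hnf.inj a) hc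
  have hP := cls_P hw hnf hc
  have hcode : ∀ S : Tk (Col H), S = tkN hw → S.Fm e (is ++ [q]) := by
    intro S hS
    rw [← hS] at hgr hrel hmin hD hP
    refine ⟨?_, by simp, ?_, ?_⟩
    · rw [hrel, Tk.pr_append, Tk.pr_cons, Tk.pr_nil, mul_one, mul_assoc]
    · intro a1 i a2 ha ha2 X hX1 hX2
      -- `is = a1 ++ i :: a2'`
      rcases List.eq_nil_or_concat a2 with h1 | ⟨a2', q', h1⟩
      · exact ha2 h1
      rw [h1, List.concat_eq_append] at ha
      have ha' : is ++ [q] = (a1 ++ i :: a2') ++ [q'] := by
        rw [ha]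
        simp
      obtain ⟨h2, h3⟩ := List.append_inj' ha' rfl
      have h4 : q = q' := by simpa using h3
      subst h4
      have hwe : S.w e = S.w 0 * S.pr a1 * (S.w i * S.pr a2) := by
        rw [hrel, h2, h1, List.concat_eq_append]
        simp only [Tk.pr_append, Tk.pr_cons, Tk.pr_nil, mul_one, mul_assoc]
      have hweR : S.w e ∈ S.R e 0 := by
        have h5 := Tk.w_mem_R (S := S) (e := e) (e : ℤ)
        have h6 := Tk.R_add (S := S) (e := e) 0 1
        rw [zero_add, one_mul] at h6
        rwa [h6] at h5
      rcases S.total _ _ _ hX1 hX2 with h5 | h5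
      · -- `w (i + e)` is legal
        refine hgr a1 i a2' h2 (Tk.R_down ?_ hweR)
        rw [hwe]
        exact mul_dvd_mul_left _ h5
      · -- `w e` is covered
        have h6 : S.IsP e a1 := by
          refine Tk.R_down ?_ hweR
          rw [hwe]
          exact Dvd.intro _ rfl
        have h7 : S.Cvr e (S.w e) a1 := by
          refine ⟨hweR, Or.inr ⟨i + e, S.w i * S.pr a2, ?_, hwe⟩⟩
          exact Tk.R_down h5 (Tk.w_mem_R _)
        have h8 := hmin a1 h6 h7
        rw [h2, List.length_append, List.length_cons] at h8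
        omega
    · intro i a2 ha
      rcases htwo with h1 | h1
      · left
        rintro rfl
        cases is with
        | nil => exact h1 rfl
        | cons b is => simp at ha
      · cases is with
        | nil =>
          rw [List.nil_append] at ha
          obtain ⟨h2, h3⟩ := List.cons.inj ha
          right
          rw [← h2]
          exact h1
        | cons b is =>
          left
          rintro rfl
          simp at ha
  have hF := hcode _ rfl
  have he := hc.1
  -- the least index
  obtain ⟨j, hj, hjmin⟩ : ∃ j ∈ (0 :: (is ++ [q]) : List ℤ), ∀ i ∈ (0 :: (is ++ [q]) : List ℤ), j ≤ i := by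
    have key : ∀ L : List ℤ, L ≠ [] → ∃ j ∈ L, ∀ i ∈ L, j ≤ i := by
      intro L
      induction L with
      | nil => intro h; exact absurd rfl h
      | cons b L ih =>
        intro _
        by_cases hL : L = []
        · subst hL
          exact ⟨b, by simp, by simp⟩
        · obtain ⟨j, hj, hj'⟩ := ih hL
          rcases le_total b j with h | h
          · refine ⟨b, by simp, ?_⟩
            intro i hi
            rcases List.mem_cons.1 hi with h1 | h1
            · rw [h1]
            · exact h.trans (hj' i h1)
          · refine ⟨j, by simp [hj], ?_⟩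
            intro i hi
            rcases List.mem_cons.1 hi with h1 | h1
            · rw [h1]
              exact h
            · exact hj' i h1
    exact key _ (by simp)
  have hj0 : j ≤ 0 := hjmin 0 (by simp)
  obtain ⟨h, hh⟩ : ∃ h : ℕ, -(h : ℤ) = j := ⟨(-j).toNat, by rw [Int.toNat_of_nonneg (by omega)]; ring⟩
  refine letters_of_code hw hnf (h := h) hF.rel ?_ ?_
  · intro i hi
    refine ⟨by rw [hh]; exact hjmin i hi, ?_⟩
    rcases List.mem_cons.1 hi with h1 | h1
    · rw [h1]
      exact_mod_cast he
    · exact hF.lt h1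
  · intro U V hU hV heq
    exact Tk.Fm.code hF hP hD he (by rw [hh]; exact hj)
      (fun i hi => by rw [hh]; exact hjmin i (List.mem_cons_of_mem _ hi)) hU hV heq

end D0L
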